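import Pool.Agent.Helper71.FC.GL2
import Pool.Agent.Helper71.FC.Sat

/-!
PROP 4 of the project on MP_45a28a (frozen statement S00166), base file.

`θ` is standard of type (4) if `θ = m φ ∧ ψ + r ψ ∧ dl + s dl ∧ φ` with linear `l, m`, 1-forms `φ, ψ` with linear
coefficients and quadrics `r, s`.  Then `xi c d = m (c φ + d ψ) - (c r + d s) dl` lies in `E#_2`.  PROP 4: if `n ≥ 5`, `E#_1 = 0` and `θ` is
closed and no cone, either some `xi c d` vanishes on a space of constant vectors of codimension ≤ 3 or `θ` is in the family (1,2,2).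

`S4` collects the hypotheses in the second case, `Ad` is the form in adapted coordinates, `l = X 0` and `φ_0 = ψ_0 = 0`.
-/

set_option autoImplicit false

namespace Pool.Agent.Helper60.FC

open MvPolynomial
open scoped BigOperators
open Pool.Agent.Helper71.FC
open Pool.Agent.Helper71.FL (w12 pf ct Dec Closed dd)
open Pool.Agent.Helper93 (lsub lmap OF pb)

variable {n k : ℕ}

/-- the `w_i` span a space of dimension at most 2 -/
def Rk2 {N : ℕ} (w : Fin k → Pn N) : Prop :=
  ∃ D : Submodule ℂ (Fin k → ℂ), k ≤ Module.finrank ℂ D + 2 ∧ ∀ v ∈ D, ∑ i, C (v i) * w i = 0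

/-- the members of the pencil in `E#_2` -/
noncomputable def xi (l m : Pn n) (φ ψ : F1 n) (r s : Pn n) (c d : ℂ) : F1 n :=
  fun i => m * (C c * φ i + C d * ψ i) - (C c * r + C d * s) * df l i

/-- `dl` and `w` vanish on a space of codimension at most 3 -/
def Van (l : Pn n) (w : F1 n) : Prop :=
  ∃ D : Submodule ℂ (Fin n → ℂ), n ≤ Module.finrank ℂ D + 3 ∧
    ∀ v ∈ D, pair (cv v) (df l) = 0 ∧ pair (cv v) w = 0

/-- standard form of type (4), no member of the pencil vanishes on a space of codimension ≤ 3 -/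
structure S4 (θ : F2 n) (l m : Pn n) (φ ψ : F1 n) (r s : Pn n) : Prop where
  dec : Dec θ
  closed : Closed θ
  ncone : ¬ Cone θ
  hl : l.IsHomogeneous 1
  l0 : l ≠ 0
  hm : m.IsHomogeneous 1
  m0 : m ≠ 0
  hφ : ∀ i, (φ i).IsHomogeneous 1
  hψ : ∀ i, (ψ i).IsHomogeneous 1
  hr : r.IsHomogeneous 2
  hs : s.IsHomogeneous 2
  eq : ∀ i j, θ i j = m * w11 φ ψ i j + r * w11 ψ (df l) i j + s * w11 (df l) φ i j
  reg : ∀ c d : ℂ, m ∣ C c * r + C d * s → c = 0 ∧ d = 0
  nt : ∀ c d : ℂ, (c ≠ 0 ∨ d ≠ 0) → ¬ Van l (fun i => C c * φ i + C d * ψ i)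

/-- the same in adapted coordinates: `l = X 0`, `φ = (0, p)`, `ψ = (0, q)` -/
structure Ad (θ : F2 (k + 1)) (m : Pn (k + 1)) (p q : Fin k → Pn (k + 1)) (r s : Pn (k + 1)) :
    Prop where
  dec : Dec θ
  closed : Closed θ
  ncone : ¬ Cone θ
  hp : ∀ i, (p i).IsHomogeneous 1
  hq : ∀ i, (q i).IsHomogeneous 1
  hr : r.IsHomogeneous 2
  hs : s.IsHomogeneous 2
  e0 : ∀ j, θ 0 j.succ = s * p j - r * q j
  e1 : ∀ i j, θ i.succ j.succ = m * (p i * q j - p j * q i)
  reg : ∀ c d : ℂ, m ∣ C c * r + C d * s → c = 0 ∧ d = 0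
  nt : ∀ c d : ℂ, (c ≠ 0 ∨ d ≠ 0) → ¬ Rk2 (fun i => C c * p i + C d * q i)

/-- two functionals on `ℂ^k` -/
theorem rk2_of_two {N : ℕ} {w : Fin k → Pn N} {u1 u2 : Pn N} {a b : Fin k → ℂ}
    (h : ∀ i, w i = C (a i) * u1 + C (b i) * u2) : Rk2 w := by
  let L : (Fin k → ℂ) →ₗ[ℂ] (Fin 2 → ℂ) :=
    { toFun := fun v => ![∑ i, v i * a i, ∑ i, v i * b i]
      map_add' := by
        intro v v'
        funext j
        fin_cases j <;> simp [add_mul, Finset.sum_add_distrib]
      map_smul' := by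
        intro c v
        funext j
        fin_cases j <;> simp [mul_assoc, Finset.mul_sum] }
  refine ⟨LinearMap.ker L, ?_, fun v hv => ?_⟩
  · have h1 := LinearMap.finrank_range_add_finrank_ker L
    have h2 := Submodule.finrank_le (LinearMap.range L)
    rw [Module.finrank_fin_fun] at h1 h2
    omega
  · have h3 : L v = 0 := hv
    have h4 : ∑ i, v i * a i = 0 := congrFun h3 0
    have h5 : ∑ i, v i * b i = 0 := congrFun h3 1
    have h6 : ∀ i, C (v i) * w i = C (v i * a i) * u1 + C (v i * b i) * u2 := by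
      intro i
      rw [h i, C_mul, C_mul]
      ring
    rw [Finset.sum_congr rfl fun i _ => h6 i, Finset.sum_add_distrib, ← Finset.sum_mul,
      ← Finset.sum_mul, ← map_sum, ← map_sum, h4, h5, C_0, zero_mul, zero_mul, add_zero]

/-- `m` functionals on `ℂ^k`, `m < k`, have a common zero -/
theorem exists_ker {m : ℕ} (hm : m < k) (a : Fin m → Fin k → ℂ) :
    ∃ v : Fin k → ℂ, v ≠ 0 ∧ ∀ j, ∑ i, v i * a j i = 0 := by
  let L : (Fin k → ℂ) →ₗ[ℂ] (Fin m → ℂ) :=
    { toFun := fun v j => ∑ i, v i * a j i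
      map_add' := by
        intro v v'
        funext j
        simp [add_mul, Finset.sum_add_distrib]
      map_smul' := by
        intro c v
        funext j
        simp [mul_assoc, Finset.mul_sum] }
  have hk : LinearMap.ker L ≠ ⊥ :=
    LinearMap.ker_ne_bot_of_finrank_lt (by rw [Module.finrank_fin_fun, Module.finrank_fin_fun]; exact hm)
  obtain ⟨v, hv, hv0⟩ := Submodule.exists_mem_ne_zero_of_ne_bot hk
  have h3 : L v = 0 := hv
  exact ⟨v, hv0, fun j => congrFun h3 j⟩

/-- `θ` is no cone -/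
theorem Ad.nc {θ : F2 (k + 1)} {m : Pn (k + 1)} {p q : Fin k → Pn (k + 1)} {r s : Pn (k + 1)}
    (h : Ad θ m p q r s) {v : Fin k → ℂ} (h1 : ∑ i, C (v i) * p i = 0)
    (h2 : ∑ i, C (v i) * q i = 0) : v = 0 := by
  by_contra hv
  apply h.ncone
  refine ⟨Fin.cons 0 v, fun h0 => hv ?_, fun j => ?_⟩
  · funext i
    have := congrFun h0 i.succ
    rwa [Fin.cons_succ] at this
  · show ∑ i, C ((Fin.cons 0 v : Fin (k + 1) → ℂ) i) * θ i j = 0
    rw [Fin.sum_univ_succ, Fin.cons_zero, C_0, zero_mul, zero_add]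
    simp only [Fin.cons_succ]
    refine Fin.cases ?_ (fun j => ?_) j
    · have h3 : ∀ i : Fin k, C (v i) * θ i.succ 0 = r * (C (v i) * q i) - s * (C (v i) * p i) := by
        intro i
        rw [h.dec.2.1, h.e0]
        ring
      rw [Finset.sum_congr rfl fun i _ => h3 i, Finset.sum_sub_distrib, ← Finset.mul_sum,
        ← Finset.mul_sum, h1, h2, mul_zero, mul_zero, sub_zero]
    · have h3 : ∀ i : Fin k, C (v i) * θ i.succ j.succ = m * q j * (C (v i) * p i) -
          m * p j * (C (v i) * q i) := by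
        intro i
        rw [h.e1]
        ring
      rw [Finset.sum_congr rfl fun i _ => h3 i, Finset.sum_sub_distrib, ← Finset.mul_sum,
        ← Finset.mul_sum, h1, h2, mul_zero, mul_zero, sub_zero]

private theorem fr_map {a b : ℕ} {f : (Fin a → ℂ) →ₗ[ℂ] (Fin b → ℂ)} (hf : Function.Injective f)
    (D : Submodule ℂ (Fin a → ℂ)) : Module.finrank ℂ (D.map f) = Module.finrank ℂ D :=
  (Submodule.equivMapOfInjective f hf D).finrank_eq.symm

private theorem fr_map' {a b : ℕ} {f : (Fin a → ℂ) →ₗ[ℂ] (Fin b → ℂ)}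
    (D : Submodule ℂ (Fin a → ℂ)) (hf : ∀ v ∈ D, f v = 0 → v = 0) :
    Module.finrank ℂ (D.map f) = Module.finrank ℂ D := by
  have h1 : Function.Injective (f.domRestrict D) := by
    rw [← LinearMap.ker_eq_bot, LinearMap.ker_eq_bot']
    intro v hv
    exact Subtype.ext (hf v.1 v.2 hv)
  rw [← LinearMap.range_domRestrict]
  exact LinearMap.finrank_range_of_inj h1

private theorem lsub_C' (g : Fin n → Fin n → ℂ) (c : ℂ) : lsub g (C c : Pn n) = C c := by
  unfold lsub; rw [aeval_C]; rfl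

private theorem lsub_inv' {g g' : Fin n → Fin n → ℂ} (hg : Inv g g') (p : Pn n) :
    lsub g' (lsub g p) = p := by
  rw [lsub_mm, hg.1, lsub_idm]

private theorem lmap_inj {g g' : Fin n → Fin n → ℂ} (hg : Inv g g') :
    Function.Injective (lmap g) := by
  intro v w h
  have key : ∀ v : Fin n → ℂ, lmap g' (lmap g v) = v := by
    intro v
    funext i
    show ∑ l, g' i l * ∑ j, g l j * v j = v i
    have h1 : ∑ l, g' i l * ∑ j, g l j * v j = ∑ j, mm g' g i j * v j := by
      unfold mm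
      simp only [Finset.mul_sum, Finset.sum_mul]
      rw [Finset.sum_comm]
      refine Finset.sum_congr rfl fun j _ => Finset.sum_congr rfl fun l _ => ?_
      ring
    rw [h1, hg.2]
    unfold idm
    simp
  rw [← key v, h, key w]

private theorem pair_pb (g : Fin n → Fin n → ℂ) (ξ : F1 n) (v : Fin n → ℂ) :
    pair (cv v) (pb g ξ) = lsub g (pair (cv (lmap g v)) ξ) := by
  show ∑ i, C (v i) * ∑ j, C (g j i) * lsub g (ξ j) =
    lsub g (∑ j, C (∑ l, g j l * v l) * ξ j)
  rw [map_sum]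
  simp only [map_mul, lsub_C', map_sum, Finset.sum_mul, Finset.mul_sum]
  rw [Finset.sum_comm]
  refine Finset.sum_congr rfl fun j _ => Finset.sum_congr rfl fun i _ => ?_
  ring

private theorem Van_pb {g g' : Fin n → Fin n → ℂ} (hg : Inv g g') {l : Pn n} {w : F1 n}
    (h : Van (lsub g l) (pb g w)) : Van l w := by
  obtain ⟨D, hD, h⟩ := h
  refine ⟨D.map (lmap g), ?_, ?_⟩
  · rw [fr_map (lmap_inj hg)]
    exact hD
  · rintro _ ⟨v, hv, rfl⟩
    obtain ⟨h1, h2⟩ := h v hv
    rw [← pb_df, pair_pb] at h1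
    rw [pair_pb] at h2
    constructor
    · rw [← lsub_inv' hg (pair (cv (lmap g v)) (df l)), h1, map_zero]
    · rw [← lsub_inv' hg (pair (cv (lmap g v)) w), h2, map_zero]

private theorem pb2_lin3 (g : Fin n → Fin n → ℂ) (a b c : Pn n) (α β γ : F2 n) (i j : Fin n) :
    Pool.Agent.Helper71.FC.pb2 g (fun i j => a * α i j + b * β i j + c * γ i j) i j =
      lsub g a * Pool.Agent.Helper71.FC.pb2 g α i j +
        lsub g b * Pool.Agent.Helper71.FC.pb2 g β i j +
        lsub g c * Pool.Agent.Helper71.FC.pb2 g γ i j := by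
  unfold Pool.Agent.Helper71.FC.pb2
  simp only [map_add, map_mul, Finset.mul_sum, ← Finset.sum_add_distrib]
  refine Finset.sum_congr rfl fun k _ => Finset.sum_congr rfl fun l _ => ?_
  ring

/-- invariance under a linear change of coordinates -/
theorem S4.pb2 {θ : F2 n} {l m : Pn n} {φ ψ : F1 n} {r s : Pn n} (h : S4 θ l m φ ψ r s)
    {g g' : Fin n → Fin n → ℂ} (hg : Inv g g') :
    S4 (Pool.Agent.Helper71.FC.pb2 g θ) (lsub g l) (lsub g m) (pb g φ) (pb g ψ) (lsub g r)
      (lsub g s) where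
  dec := Dec_pb2 h.dec g
  closed := Closed_pb2 h.closed g
  ncone := fun hc => h.ncone ((Cone_pb2 θ hg).1 hc)
  hl := lsub_hom h.hl
  l0 := fun h0 => h.l0 (by rw [← lsub_inv' hg l, h0, map_zero])
  hm := lsub_hom h.hm
  m0 := fun h0 => h.m0 (by rw [← lsub_inv' hg m, h0, map_zero])
  hφ := fun i => pb_hom h.hφ i
  hψ := fun i => pb_hom h.hψ i
  hr := lsub_hom h.hr
  hs := lsub_hom h.hs
  eq := fun i j => by
    have h1 : θ = fun i j => m * w11 φ ψ i j + r * w11 ψ (df l) i j + s * w11 (df l) φ i j := by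
      funext i j
      exact h.eq i j
    conv_lhs => rw [h1]
    rw [pb2_lin3, pb2_w11, pb2_w11, pb2_w11, pb_df]
  reg := fun c d hcd => by
    apply h.reg c d
    have h1 := map_dvd (lsub g') hcd
    rw [map_add, map_mul, map_mul, lsub_inv' hg, lsub_inv' hg, lsub_inv' hg, lsub_C', lsub_C']
      at h1
    exact h1
  nt := fun c d hcd hv => by
    apply h.nt c d hcd
    have h1 : (fun i => C c * pb g φ i + C d * pb g ψ i) =
        pb g (fun i => C c * φ i + C d * ψ i) := by
      have h2 := pb_add g (fun i => C c * φ i) (fun i => C d * ψ i)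
      rw [h2, pb_smul, pb_smul, lsub_C', lsub_C']
    rw [h1] at hv
    exact Van_pb hg hv

private theorem df_X0_zero : df (X 0 : Pn (k + 1)) 0 = 1 := by
  simp [df, pderiv_X]

private theorem df_X0_succ (j : Fin k) : df (X 0 : Pn (k + 1)) j.succ = 0 := by
  show pderiv j.succ (X 0 : Pn (k + 1)) = 0
  rw [pderiv_X, Pi.single_eq_of_ne (Fin.succ_ne_zero j).symm]

private def consL : (Fin k → ℂ) →ₗ[ℂ] (Fin (k + 1) → ℂ) where
  toFun v := Fin.cons 0 v
  map_add' v w := by
    funext i
    refine Fin.cases ?_ (fun i => ?_) i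
    · simp
    · simp
  map_smul' c v := by
    funext i
    refine Fin.cases ?_ (fun i => ?_) i
    · simp
    · simp

private theorem consL_zero (v : Fin k → ℂ) : consL v 0 = 0 := rfl

private theorem consL_succ (v : Fin k → ℂ) (i : Fin k) : consL v i.succ = v i := rfl

private theorem consL_inj : Function.Injective (consL (k := k)) := by
  intro v w h
  funext i
  have := congrFun h i.succ
  rwa [consL_succ, consL_succ] at this

private theorem pair_consL (v : Fin k → ℂ) (w : F1 (k + 1)) :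
    pair (cv (consL v)) w = ∑ i, C (v i) * w i.succ := by
  show ∑ i, C (consL v i) * w i = _
  rw [Fin.sum_univ_succ, consL_zero, C_0, zero_mul, zero_add]
  rfl

private theorem pair_consL_df (v : Fin k → ℂ) : pair (cv (consL v)) (df (X 0)) = 0 := by
  rw [pair_consL]
  exact Finset.sum_eq_zero fun i _ => by rw [df_X0_succ, mul_zero]

/-- adapted coordinates: subtract the `dX_0`-components of `φ, ψ` -/
theorem S4.ad {θ : F2 (k + 1)} {m : Pn (k + 1)} {φ ψ : F1 (k + 1)} {r s : Pn (k + 1)}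
    (h : S4 θ (X 0) m φ ψ r s) :
    Ad θ m (fun i => φ i.succ) (fun i => ψ i.succ) (r - m * φ 0) (s - m * ψ 0) where
  dec := h.dec
  closed := h.closed
  ncone := h.ncone
  hp := fun i => h.hφ i.succ
  hq := fun i => h.hψ i.succ
  hr := h.hr.sub (h.hm.mul (h.hφ 0))
  hs := h.hs.sub (h.hm.mul (h.hψ 0))
  e0 := fun j => by
    rw [h.eq]
    simp only [w11, df_X0_zero, df_X0_succ]
    ring
  e1 := fun i j => by
    rw [h.eq]
    simp only [w11, df_X0_succ]
    ring
  reg := fun c d hcd => by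
    apply h.reg c d
    have h1 : C c * r + C d * s = (C c * (r - m * φ 0) + C d * (s - m * ψ 0)) +
        m * (C c * φ 0 + C d * ψ 0) := by ring
    rw [h1]
    exact dvd_add hcd (dvd_mul_right _ _)
  nt := fun c d hcd hv => by
    apply h.nt c d hcd
    obtain ⟨D, hD, hv⟩ := hv
    refine ⟨D.map consL, ?_, ?_⟩
    · rw [fr_map consL_inj]
      omega
    · rintro _ ⟨v, hv', rfl⟩
      refine ⟨pair_consL_df v, ?_⟩
      rw [pair_consL]
      exact hv v hv'

/-- and back -/
theorem Ad.s4 {θ : F2 (k + 1)} {m : Pn (k + 1)} {p q : Fin k → Pn (k + 1)} {r s : Pn (k + 1)}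
    (hm : m.IsHomogeneous 1) (m0 : m ≠ 0) (h : Ad θ m p q r s) :
    S4 θ (X 0) m (Fin.cons 0 p) (Fin.cons 0 q) r s where
  dec := h.dec
  closed := h.closed
  ncone := h.ncone
  hl := isHomogeneous_X _ _
  l0 := X_ne_zero _
  hm := hm
  m0 := m0
  hφ := fun i => by
    refine Fin.cases ?_ (fun i => ?_) i
    · rw [Fin.cons_zero]
      exact isHomogeneous_zero _ _ _
    · rw [Fin.cons_succ]
      exact h.hp i
  hψ := fun i => by
    refine Fin.cases ?_ (fun i => ?_) i
    · rw [Fin.cons_zero]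
      exact isHomogeneous_zero _ _ _
    · rw [Fin.cons_succ]
      exact h.hq i
  hr := h.hr
  hs := h.hs
  eq := fun i j => by
    refine Fin.cases ?_ (fun i => ?_) i
    · refine Fin.cases ?_ (fun j => ?_) j
      · rw [h.dec.1]
        simp only [w11]
        ring
      · rw [h.e0]
        simp only [w11, df_X0_zero, df_X0_succ, Fin.cons_zero, Fin.cons_succ]
        ring
    · refine Fin.cases ?_ (fun j => ?_) j
      · rw [h.dec.2.1, h.e0]
        simp only [w11, df_X0_zero, df_X0_succ, Fin.cons_zero, Fin.cons_succ]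
        ring
      · rw [h.e1]
        simp only [w11, df_X0_succ, Fin.cons_succ]
        ring
  reg := h.reg
  nt := fun c d hcd hv => by
    apply h.nt c d hcd
    obtain ⟨D, hD, hv⟩ := hv
    have h0 : ∀ v ∈ D, v 0 = 0 := by
      intro v hvD
      have h1 : ∑ i, C (v i) * df (X 0 : Pn (k + 1)) i = 0 := (hv v hvD).1
      rw [Fin.sum_univ_succ, df_X0_zero, mul_one] at h1
      simp only [df_X0_succ, mul_zero, Finset.sum_const_zero, add_zero] at h1
      rwa [C_eq_zero] at h1
    let T : (Fin (k + 1) → ℂ) →ₗ[ℂ] (Fin k → ℂ) :=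
      { toFun := fun v i => v i.succ
        map_add' := fun _ _ => rfl
        map_smul' := fun _ _ => rfl }
    have hT : ∀ v i, T v i = v i.succ := fun _ _ => rfl
    refine ⟨D.map T, ?_, ?_⟩
    · rw [fr_map' D fun v hv' hv0 => by
        funext i
        refine Fin.cases ?_ (fun i => ?_) i
        · exact h0 v hv'
        · exact congrFun hv0 i]
      omega
    · rintro _ ⟨v, hv', rfl⟩
      have h1 : ∑ i, C (v i) * (C c * (Fin.cons 0 p : F1 (k + 1)) i +
          C d * (Fin.cons 0 q : F1 (k + 1)) i) = 0 := (hv v hv').2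
      rw [Fin.sum_univ_succ, h0 v hv', C_0, zero_mul, zero_add] at h1
      simp only [Fin.cons_succ] at h1
      exact h1

end Pool.Agent.Helper60.FC
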