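import Mathlib

/-!
P4-2: pure linear algebra: pencils of alternating forms `B2, B3` on `W` (`dim W ≥ 4`) and linear maps `P, Q : V → W*` with
`B2 ∧ Q x = B3 ∧ P x` for all `x` (as 3-forms; `cyc B f a b c = (B ∧ f)(a,b,c)`).

`la1`: choose `a, b` with `B a b ≠ 0`.  For every `d` the vector `D d = B a b • d + B b d • a + B d a • b` is killed by all `f ∈ R`; `D` is linear
with kernel in `span {a, b}`, so its range has dimension ≥ dim W - 2.

`la2`: suppose the first alternative fails: (R) for all `(c, d) ≠ 0` the space `N_(c,d) = {v : ∀ x, (c P x + d Q x) v = 0}` has dimension ≤ dim W - 3.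
Step 0. There is `x` with `e = P x`, `f = Q x` linearly independent.  (Otherwise: take `x` with `P x ≠ 0`, `Q x = λ P x`, and `x'` with `P x'`
independent of `P x` (exists: otherwise all `P x'` are multiples of `P x` and `N_(1,0)` has dimension ≥ dim W - 1); sums give the same `λ` for all
`x`, so `λ P - Q = 0`, `N_(λ,-1) = W`.)
Choose `c0, c1 ∈ W` with `e c0 = 1, f c0 = 0, e c1 = 0, f c1 = 1`, `W' = ker e ∩ ker f` (dimension dim W - 2).
`cyc` for `(e, f)` and `a, b ∈ W'`: `B2 a b = 0 = B3 a b`; on `(a, c0, c1)`: `B2 a c0 = B3 c1 a`.  Put `g2 a = B2 c0 a`, `h2 a = B2 c1 a`, `g3 a = B3 c0 a`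
(and `B3 c1 a = - g2 a`).  For every `x` and `a, b ∈ W'` (`p = P x`, `q = Q x`): `g2 a q b - g2 b q a = g3 a p b - g3 b p a`,
`h2 a q b - h2 b q a = -(g2 a p b - g2 b p a)`.
Step 1. There are `(s, t) ≠ 0`, `u, v ∈ W*` with `s B2 + t B3 = u ∧ v`.  If `g2, g3, h2` are independent on `W'` take dual vectors `a1, a2, a3`
(`g2, g3, h2`); the equations give `p = q = 0` on `W'` for all `x`, so `N_(1,0) ⊇ W'`, contradiction.  Otherwise some
`s g2 + t g3`, `s h2 - t g2` with `(s, t) ≠ 0` are dependent on `W'` (if `g3 = α g2 + β h2`: `s² + α s t + β t² = 0`; if `g2, h2` are dependent: `(1, 0)`), say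
`κ (s g2 + t g3) + λ (s h2 - t g2) = 0`; put `B = s B2 + t B3`, `c' = κ c0 + λ c1`, `c''` a complementary vector in `⟨c0, c1⟩`:
`B (c', a) = 0` for `a ∈ W'`, and `B = u ∧ B (c'', ·)` with `u ∈ ⟨e, f⟩`, `u c' = 0`, `u c'' = 1`.
Step 2. Let `B' = s' B2 + t' B3`, `s t' - s' t = 1`, `q' = s P x + t Q x`, `p' = s' P x + t' Q x`: `B' ∧ q' = B ∧ p'` for all `x`.  For `w ∈ ⟨u, v⟩` let
`T_w = w ∧ B'` (3-form), so `T_w ∧ q' = 0` for all `x`.  If `T_w (a, b, c) ≠ 0` then
`D d = T(a,b,c) d - T(d,b,c) a + T(d,a,c) b - T(d,a,b) c ∈ N := N_(s,t)`, `ker D ⊆ ⟨a, b, c⟩`: `dim range D ≥ dim W - 3`, so by (R) `N = range D` has dimension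
dim W - 3.  If `T_u = T_v = 0` then `B' = κ u ∧ v`, `B2, B3` are dependent: contradiction.  So `N` has dimension dim W - 3 ≥ 1 and `ann N` (dimension 3) is
`{q' = q' x : x ∈ V}` (spans), `T_w ∧ f = 0` for `f ∈ ann N`; let `v0 ∈ N`, `v0 ≠ 0`.  If `T_w ≠ 0`: `f ∈ W*` with `T_w ∧ f = 0` kills `N` [`T_w ∧ f (a, b, c, D d)`..:
`T (x, y, d) = 0` for `d ∈ N`, all `x, y`: a 3-form `T` killed by three independent `f1, f2, f3` is `T(b1,b2,b3) f1 ∧ f2 ∧ f3`]; so `w v0 = 0` (`T_w ∧ w = 0`) and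
`w' v0 = 0` for `w' ∈ ⟨u, v⟩` (`T_w ∧ w' = ∓ T_w' ∧ w`, if `T_w' = 0` then `T_w ∧ w' = 0`, if not then use `T_w' ∧ w' = 0`); hence `u v0 = v v0 = 0`.
`i_(v0) T_w = 0` for all `w ∈ ⟨u, v⟩`, i.e. `w ∧ B' (v0, ·) = 0`, for `w = u, v`: `B' (v0, ·) = 0`, and `B (v0, ·) = 0`.
`cyc` on `(v0, a, b)`: `B (a, b) p' v0 = 0`, so `p' v0 = 0` for all `x`, `q' v0 = 0`: second alternative. -/

set_option autoImplicit false

namespace Pool.Agent.Helper60.FC

variable {V W : Type} [AddCommGroup V] [Module ℂ V] [AddCommGroup W] [Module ℂ W]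
  [FiniteDimensional ℂ W]

/-- the 3-form `B ∧ f` -/
def cyc (B : W →ₗ[ℂ] W →ₗ[ℂ] ℂ) (f : W →ₗ[ℂ] ℂ) (a b c : W) : ℂ :=
  B a b * f c + B b c * f a + B c a * f b

theorem la1 {B : W →ₗ[ℂ] W →ₗ[ℂ] ℂ} (hB : ∀ a, B a a = 0) (hB0 : B ≠ 0)
    (R : V → W →ₗ[ℂ] ℂ) (h : ∀ x a b c, cyc B (R x) a b c = 0) :
    ∃ D : Submodule ℂ W, Module.finrank ℂ W ≤ Module.finrank ℂ D + 2 ∧ ∀ v ∈ D, ∀ x, R x v = 0 := by
  obtain ⟨a, b, hab⟩ : ∃ a b, B a b ≠ 0 := by
    by_contra hcon
    push Not at hcon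
    exact hB0 (LinearMap.ext fun a => LinearMap.ext fun b => hcon a b)
  obtain ⟨D, hD⟩ : ∃ D : W →ₗ[ℂ] W, ∀ d, D d = B a b • d + B b d • a + B d a • b :=
    ⟨(B a b) • LinearMap.id + (B b).smulRight a + (B.flip a).smulRight b, fun d => by simp⟩
  refine ⟨LinearMap.range D, ?_, ?_⟩
  · have h1 := LinearMap.finrank_range_add_finrank_ker D
    have h2 : LinearMap.ker D ≤ Submodule.span ℂ (Set.range ![a, b]) := by
      intro d hd
      rw [LinearMap.mem_ker, hD] at hd
      have h3 : d = (-(B a b)⁻¹ * B b d) • a + (-(B a b)⁻¹ * B d a) • b := by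
        have h4 : (B a b)⁻¹ • (B a b • d + B b d • a + B d a • b) = 0 := by
          rw [hd, smul_zero]
        rw [smul_add, smul_add, smul_smul, smul_smul, smul_smul, inv_mul_cancel₀ hab,
          one_smul] at h4
        rw [neg_mul, neg_mul, neg_smul, neg_smul]
        have h5 : d = (d + ((B a b)⁻¹ * (B b) d) • a + ((B a b)⁻¹ * (B d) a) • b)
            + (-(((B a b)⁻¹ * (B b) d) • a) + -(((B a b)⁻¹ * (B d) a) • b)) := by abel
        rw [h4, zero_add] at h5
        exact h5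
      rw [h3]
      exact Submodule.add_mem _ (Submodule.smul_mem _ _ (Submodule.subset_span ⟨0, rfl⟩))
        (Submodule.smul_mem _ _ (Submodule.subset_span ⟨1, rfl⟩))
    have h3 := Submodule.finrank_mono h2
    have h4 : Module.finrank ℂ (Submodule.span ℂ (Set.range ![a, b])) ≤ 2 := by
      have := finrank_range_le_card (R := ℂ) ![a, b]
      simpa [Set.finrank] using this
    omega
  · rintro _ ⟨d, rfl⟩ x
    have h1 := h x a b d
    rw [hD, map_add, map_add, map_smul, map_smul, map_smul]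
    simp only [cyc] at h1
    simp only [smul_eq_mul]
    exact h1

/-- two independent functionals have a dual pair of vectors -/
private theorem dual_pair {e f : W →ₗ[ℂ] ℂ} (hi : LinearIndependent ℂ ![e, f]) :
    ∃ c0 c1 : W, e c0 = 1 ∧ f c0 = 0 ∧ e c1 = 0 ∧ f c1 = 1 := by
  have he : e ≠ 0 := by
    have := hi.ne_zero 0
    simpa using this
  obtain ⟨a, ha⟩ : ∃ a, e a ≠ 0 := by
    by_contra hcon
    push Not at hcon
    exact he (LinearMap.ext hcon)
  obtain ⟨b, hb⟩ : ∃ b, e a * f b - f a * e b ≠ 0 := by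
    by_contra hcon
    push Not at hcon
    rw [LinearIndependent.pair_iff] at hi
    have h1 := hi (-(f a)) (e a) (LinearMap.ext fun b => by
      have := hcon b
      simp only [LinearMap.add_apply, LinearMap.smul_apply, smul_eq_mul, LinearMap.zero_apply]
      linear_combination this)
    exact ha h1.2
  refine ⟨(e a * f b - f a * e b)⁻¹ • (f b • a - f a • b),
    (e a * f b - f a * e b)⁻¹ • (e a • b - e b • a), ?_, ?_, ?_, ?_⟩
  · simp only [map_smul, map_sub, smul_eq_mul]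
    rw [inv_mul_eq_one₀ hb]
    ring
  · simp only [map_smul, map_sub, smul_eq_mul]
    ring
  · simp only [map_smul, map_sub, smul_eq_mul]
    ring
  · simp only [map_smul, map_sub, smul_eq_mul]
    rw [inv_mul_eq_one₀ hb]
    ring

/-- all pairs dependent -/
private theorem la_dep (P Q : V →ₗ[ℂ] W →ₗ[ℂ] ℂ)
    (h : ∀ x, ¬ LinearIndependent ℂ ![P x, Q x]) :
    ∃ c d : ℂ, (c ≠ 0 ∨ d ≠ 0) ∧ ∃ D : Submodule ℂ W,
      Module.finrank ℂ W ≤ Module.finrank ℂ D + 2 ∧
      ∀ v ∈ D, ∀ x, (c • P x + d • Q x) v = 0 := by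
  by_cases hP : ∀ x, P x = 0
  · exact ⟨1, 0, Or.inl one_ne_zero, ⊤, by rw [finrank_top]; omega,
      fun v _ x => by rw [hP x]; simp⟩
  push Not at hP
  obtain ⟨x0, hx0⟩ := hP
  -- dependence in usable form
  have dep : ∀ x, ∃ s t : ℂ, s • P x + t • Q x = 0 ∧ (s ≠ 0 ∨ t ≠ 0) := by
    intro x
    have h1 := h x
    rw [LinearIndependent.pair_iff] at h1
    push Not at h1
    obtain ⟨s, t, hst, h2⟩ := h1
    refine ⟨s, t, hst, ?_⟩
    by_cases hs : s = 0
    · exact Or.inr (h2 hs)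
    · exact Or.inl hs
  obtain ⟨l, hl⟩ : ∃ l : ℂ, Q x0 = l • P x0 := by
    obtain ⟨s, t, hst, hne⟩ := dep x0
    have ht : t ≠ 0 := by
      intro ht
      rw [ht, zero_smul, add_zero] at hst
      rcases smul_eq_zero.1 hst with hs | hs
      · rcases hne with hne | hne
        · exact hne hs
        · exact hne ht
      · exact hx0 hs
    refine ⟨-(t⁻¹ * s), ?_⟩
    have h1 : t⁻¹ • (s • P x0 + t • Q x0) = 0 := by rw [hst, smul_zero]
    rw [smul_add, smul_smul, smul_smul, inv_mul_cancel₀ ht, one_smul] at h1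
    rw [neg_smul]
    exact eq_neg_of_add_eq_zero_right h1
  by_cases hR : ∀ x, Q x - l • P x = 0
  · refine ⟨-l, 1, Or.inr one_ne_zero, ⊤, by rw [finrank_top]; omega, fun v _ x => ?_⟩
    have h1 : (-l) • P x + (1 : ℂ) • Q x = 0 := by
      rw [neg_smul, one_smul, neg_add_eq_sub]
      exact hR x
    rw [h1, LinearMap.zero_apply]
  push Not at hR
  obtain ⟨x1, hx1⟩ := hR
  -- if `R x ≠ 0` then `P x` is a multiple of `R x`
  have mul : ∀ x, Q x - l • P x ≠ 0 → ∃ m : ℂ, P x = m • (Q x - l • P x) := by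
    intro x hx
    obtain ⟨s, t, hst, hne⟩ := dep x
    have hne2 : s + t * l ≠ 0 := by
      intro h0
      have h1 : t • (Q x - l • P x) = 0 := by
        have h2 : t • (Q x - l • P x) = (s • P x + t • Q x) - (s + t * l) • P x := by module
        rw [h2, hst, h0, zero_smul, sub_zero]
      rcases smul_eq_zero.1 h1 with h3 | h3
      · rw [h3, zero_mul, add_zero] at h0
        rcases hne with hne | hne
        · exact hne h0
        · exact hne h3
      · exact hx h3
    refine ⟨-((s + t * l)⁻¹ * t), ?_⟩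
    have h1 : (s + t * l) • P x = (-t) • (Q x - l • P x) := by
      have h2 : (s + t * l) • P x = (s • P x + t • Q x) + (-t) • (Q x - l • P x) := by module
      rw [h2, hst, zero_add]
    have h2 : P x = (s + t * l)⁻¹ • ((s + t * l) • P x) := by
      rw [smul_smul, inv_mul_cancel₀ hne2, one_smul]
    rw [h1, smul_smul] at h2
    refine h2.trans ?_
    congr 1
    ring
  obtain ⟨R, hRd⟩ : ∃ R : V →ₗ[ℂ] W →ₗ[ℂ] ℂ, ∀ x, R x = Q x - l • P x :=
    ⟨Q - l • P, fun x => by simp⟩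
  have mul' : ∀ x, R x ≠ 0 → ∃ m : ℂ, P x = m • R x := by
    intro x hx
    rw [hRd] at hx ⊢
    exact mul x hx
  have hRx0 : R x0 = 0 := by rw [hRd, hl, sub_self]
  have hRx1 : R x1 ≠ 0 := by rw [hRd]; exact hx1
  -- for `R x ≠ 0`, `P x0` is a multiple of `R x`
  have hx0m : ∀ x, R x ≠ 0 → ∃ m : ℂ, P x0 = m • R x := by
    intro x hx
    obtain ⟨m, hm⟩ := mul' x hx
    have h1 : R (x + x0) = R x := by rw [map_add, hRx0, add_zero]
    obtain ⟨m', hm'⟩ := mul' (x + x0) (by rw [h1]; exact hx)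
    rw [h1, map_add, hm] at hm'
    exact ⟨m' - m, by rw [sub_smul, ← hm']; abel⟩
  have hall : ∀ x, ∃ m : ℂ, P x = m • R x1 := by
    intro x
    by_cases hx : R x = 0
    · obtain ⟨m, hm⟩ := mul' x1 hRx1
      have h1 : R (x + x1) = R x1 := by rw [map_add, hx, zero_add]
      obtain ⟨m', hm'⟩ := mul' (x + x1) (by rw [h1]; exact hRx1)
      rw [h1, map_add, hm] at hm'
      exact ⟨m' - m, by rw [sub_smul, ← hm']; abel⟩
    · obtain ⟨m, hm⟩ := mul' x hx
      obtain ⟨m0, hm0⟩ := hx0m x hx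
      obtain ⟨m1, hm1⟩ := hx0m x1 hRx1
      have hm0' : m0 ≠ 0 := by
        intro h0
        rw [h0, zero_smul] at hm0
        exact hx0 hm0
      refine ⟨m * (m0⁻¹ * m1), ?_⟩
      have h1 : R x = (m0⁻¹ * m1) • R x1 := by
        have h2 : R x = m0⁻¹ • (m0 • R x) := by
          rw [smul_smul, inv_mul_cancel₀ hm0', one_smul]
        rw [← hm0, hm1, smul_smul] at h2
        exact h2
      rw [hm, h1, smul_smul]
  refine ⟨1, 0, Or.inl one_ne_zero, LinearMap.ker (R x1), ?_, ?_⟩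
  · have h1 := LinearMap.finrank_range_add_finrank_ker (R x1)
    have h2 : Module.finrank ℂ (LinearMap.range (R x1)) ≤ Module.finrank ℂ ℂ :=
      Submodule.finrank_le _
    rw [Module.finrank_self] at h2
    omega
  · intro v hv x
    obtain ⟨m, hm⟩ := hall x
    rw [LinearMap.mem_ker] at hv
    rw [hm]
    simp [hv]

/-- dimension at least five, an independent pair -/
private theorem la_ind (hW : 5 ≤ Module.finrank ℂ W) {B2 B3 : W →ₗ[ℂ] W →ₗ[ℂ] ℂ}
    (h2 : ∀ a, B2 a a = 0) (h3 : ∀ a, B3 a a = 0)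
    (hker : ∀ v, (∀ a, B2 v a = 0) → (∀ a, B3 v a = 0) → v = 0) (P Q : V →ₗ[ℂ] W →ₗ[ℂ] ℂ)
    (h : ∀ x a b c, cyc B2 (Q x) a b c = cyc B3 (P x) a b c) (x0 : V)
    (hx0 : LinearIndependent ℂ ![P x0, Q x0]) :
    ∃ c d : ℂ, (c ≠ 0 ∨ d ≠ 0) ∧ ∃ D : Submodule ℂ W,
      Module.finrank ℂ W ≤ Module.finrank ℂ D + 2 ∧
      ∀ v ∈ D, ∀ x, (c • P x + d • Q x) v = 0 := by
  have s2 : ∀ a b, B2 a b = -B2 b a := by
    intro a b
    have h1 := h2 (a + b)
    simp only [map_add, LinearMap.add_apply, h2] at h1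
    linear_combination h1
  have s3 : ∀ a b, B3 a b = -B3 b a := by
    intro a b
    have h1 := h3 (a + b)
    simp only [map_add, LinearMap.add_apply, h3] at h1
    linear_combination h1
  obtain ⟨c0, c1, e0, f0, e1, f1⟩ := dual_pair hx0
  obtain ⟨W', hW'⟩ : ∃ W' : Submodule ℂ W, W' = LinearMap.ker ((P x0).prod (Q x0)) := ⟨_, rfl⟩
  have hmem : ∀ a, a ∈ W' ↔ P x0 a = 0 ∧ Q x0 a = 0 := by
    intro a
    rw [hW', LinearMap.ker_prod, Submodule.mem_inf, LinearMap.mem_ker, LinearMap.mem_ker]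
  have hdim : Module.finrank ℂ W ≤ Module.finrank ℂ W' + 2 := by
    have h1 := LinearMap.finrank_range_add_finrank_ker ((P x0).prod (Q x0))
    rw [← hW'] at h1
    have h2 : Module.finrank ℂ (LinearMap.range ((P x0).prod (Q x0))) ≤
        Module.finrank ℂ (ℂ × ℂ) := Submodule.finrank_le _
    rw [Module.finrank_prod, Module.finrank_self] at h2
    omega
  have k3 : ∀ a ∈ W', ∀ b ∈ W', B3 a b = 0 := by
    intro a ha b hb
    rw [hmem] at ha hb
    have h1 := h x0 a b c0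
    simp only [cyc, f0, e0, ha.1, ha.2, hb.1, hb.2] at h1
    linear_combination -h1
  have k2 : ∀ a ∈ W', ∀ b ∈ W', B2 a b = 0 := by
    intro a ha b hb
    rw [hmem] at ha hb
    have h1 := h x0 a b c1
    simp only [cyc, f1, e1, ha.1, ha.2, hb.1, hb.2] at h1
    linear_combination h1
  have k1 : ∀ a ∈ W', B3 c1 a = -B2 c0 a := by
    intro a ha
    rw [hmem] at ha
    have h1 := h x0 a c0 c1
    simp only [cyc, f1, e1, f0, e0, ha.1, ha.2] at h1
    rw [← s2 a c0]
    linear_combination -h1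
  have hdec : ∀ w : W, w - P x0 w • c0 - Q x0 w • c1 ∈ W' := by
    intro w
    rw [hmem]
    simp only [map_sub, map_smul, smul_eq_mul, e0, e1, f0, f1]
    constructor <;> ring
  -- the injection
  obtain ⟨th, hth⟩ : ∃ th : W' →ₗ[ℂ] (Fin 3 → ℂ), ∀ a, th a = ![B2 c0 a, B2 c1 a, B3 c0 a] :=
    ⟨LinearMap.pi ![(B2 c0).comp W'.subtype, (B2 c1).comp W'.subtype, (B3 c0).comp W'.subtype],
      fun a => by
        funext i
        fin_cases i <;> rfl⟩
  have hinj : Function.Injective th := by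
    rw [← LinearMap.ker_eq_bot, LinearMap.ker_eq_bot']
    intro a ha
    rw [hth] at ha
    have t0 : B2 c0 a = 0 := congrFun ha 0
    have t1 : B2 c1 a = 0 := congrFun ha 1
    have t2 : B3 c0 a = 0 := congrFun ha 2
    apply Subtype.ext
    refine hker _ ?_ ?_
    · intro w
      have h1 := k2 a a.2 _ (hdec w)
      rw [map_sub, map_sub, map_smul, map_smul, s2 _ c0, s2 _ c1, t0, t1] at h1
      simpa using h1
    · intro w
      have h1 := k3 a a.2 _ (hdec w)
      rw [map_sub, map_sub, map_smul, map_smul, s3 _ c0, s3 _ c1, k1 a a.2, t0, t2] at h1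
      simpa using h1
  have hfr : Module.finrank ℂ W' = Module.finrank ℂ (Fin 3 → ℂ) := by
    have h1 := LinearMap.finrank_le_finrank_of_injective hinj
    rw [Module.finrank_fin_fun] at h1 ⊢
    omega
  have hsurj : Function.Surjective th :=
    (LinearMap.injective_iff_surjective_of_finrank_eq_finrank hfr).1 hinj
  obtain ⟨a1, ha1⟩ := hsurj ![1, 0, 0]
  obtain ⟨a2, ha2⟩ := hsurj ![0, 1, 0]
  obtain ⟨a3, ha3⟩ := hsurj ![0, 0, 1]
  have hspan : ∀ a : W', a = (B2 c0 a) • a1 + (B2 c1 a) • a2 + (B3 c0 a) • a3 := by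
    intro a
    apply hinj
    rw [map_add, map_add, map_smul, map_smul, map_smul, ha1, ha2, ha3, hth]
    funext i
    fin_cases i <;> simp
  rw [hth] at ha1 ha2 ha3
  have u11 : B2 c0 a1 = 1 := congrFun ha1 0
  have u12 : B2 c1 a1 = 0 := congrFun ha1 1
  have u13 : B3 c0 a1 = 0 := congrFun ha1 2
  have u21 : B2 c0 a2 = 0 := congrFun ha2 0
  have u22 : B2 c1 a2 = 1 := congrFun ha2 1
  have u23 : B3 c0 a2 = 0 := congrFun ha2 2
  have u31 : B2 c0 a3 = 0 := congrFun ha3 0
  have u32 : B2 c1 a3 = 0 := congrFun ha3 1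
  have u33 : B3 c0 a3 = 1 := congrFun ha3 2
  have E1 : ∀ x, ∀ a b : W', B2 c0 a * Q x b - B2 c0 b * Q x a =
      B3 c0 a * P x b - B3 c0 b * P x a := by
    intro x a b
    have h1 := h x c0 a b
    simp only [cyc, k2 a a.2 b b.2, k3 a a.2 b b.2, s2 b c0, s3 b c0] at h1
    linear_combination h1
  have E2 : ∀ x, ∀ a b : W', B2 c1 a * Q x b - B2 c1 b * Q x a =
      -(B2 c0 a * P x b) + B2 c0 b * P x a := by
    intro x a b
    have h1 := h x c1 a b
    simp only [cyc, k2 a a.2 b b.2, k3 a a.2 b b.2, s2 b c1, s3 b c1, k1 a a.2, k1 b b.2] at h1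
    linear_combination h1
  refine ⟨1, 0, Or.inl one_ne_zero, W', hdim, ?_⟩
  intro v hv x
  have q1 := E1 x a1 a2
  have q2 := E2 x a1 a2
  have q3 := E1 x a1 a3
  have q4 := E2 x a1 a3
  have q5 := E1 x a2 a3
  have q6 := E2 x a2 a3
  rw [u11, u21, u13, u23] at q1
  rw [u12, u22, u11, u21] at q2
  rw [u11, u31, u13, u33] at q3
  rw [u12, u32, u11, u31] at q4
  rw [u21, u31, u23, u33] at q5
  rw [u22, u32, u21, u31] at q6
  have z3 : P x a3 = 0 := by linear_combination q4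
  have z2 : P x a2 = 0 := by linear_combination q5
  have z1 : P x a1 = 0 := by linear_combination q3 - q6
  have h1 := congrArg (fun a : W' => P x (a : W)) (hspan ⟨v, hv⟩)
  simp only [Submodule.coe_add, Submodule.coe_smul, map_add, map_smul, z1, z2, z3,
    smul_zero, add_zero] at h1
  simp [h1]

/-- dimension four -/
private theorem la_four (hW : Module.finrank ℂ W = 4) {B2 B3 : W →ₗ[ℂ] W →ₗ[ℂ] ℂ}
    (h2 : ∀ a, B2 a a = 0) (h3 : ∀ a, B3 a a = 0) (hi : LinearIndependent ℂ ![B2, B3])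
    (hker : ∀ v, (∀ a, B2 v a = 0) → (∀ a, B3 v a = 0) → v = 0) (P Q : V →ₗ[ℂ] W →ₗ[ℂ] ℂ)
    (h : ∀ x a b c, cyc B2 (Q x) a b c = cyc B3 (P x) a b c) :
    ∃ c d : ℂ, (c ≠ 0 ∨ d ≠ 0) ∧ ∃ D : Submodule ℂ W,
      Module.finrank ℂ W ≤ Module.finrank ℂ D + 2 ∧
      ∀ v ∈ D, ∀ x, (c • P x + d • Q x) v = 0 := by
  have hnt : Nontrivial W := Module.nontrivial_of_finrank_pos (R := ℂ) (by omega)
  -- a singular member of the pencil
  obtain ⟨s, t, hst, k, hk0, hk⟩ : ∃ s t : ℂ, (s ≠ 0 ∨ t ≠ 0) ∧ ∃ k : W, k ≠ 0 ∧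
      ∀ a, s * B2 k a + t * B3 k a = 0 := by
    by_cases hB : Function.Injective B3
    · have hfr : Module.finrank ℂ W = Module.finrank ℂ (W →ₗ[ℂ] ℂ) :=
        (Subspace.dual_finrank_eq (K := ℂ) (V := W)).symm
      obtain ⟨f, hf⟩ : ∃ f : W →ₗ[ℂ] W, ∀ v, B3 (f v) = B2 v := by
        refine ⟨(LinearEquiv.ofInjectiveOfFinrankEq B3 hB hfr).symm.toLinearMap.comp B2, ?_⟩
        intro v
        have h1 := (LinearEquiv.ofInjectiveOfFinrankEq B3 hB hfr).apply_symm_apply (B2 v)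
        exact h1
      obtain ⟨μ, hμ⟩ := Module.End.exists_eigenvalue f
      obtain ⟨k, hk⟩ := hμ.exists_hasEigenvector
      refine ⟨1, -μ, Or.inl one_ne_zero, k, hk.2, fun a => ?_⟩
      have h1 := hk.apply_eq_smul
      have h4 := hf k
      rw [h1, map_smul] at h4
      rw [← h4]
      simp
    · rw [← LinearMap.ker_eq_bot, Submodule.eq_bot_iff] at hB
      push Not at hB
      obtain ⟨k, hk, hk0⟩ := hB
      rw [LinearMap.mem_ker] at hk
      exact ⟨0, 1, Or.inr one_ne_zero, k, hk0, fun a => by rw [hk]; simp⟩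
  obtain ⟨s', t', hst'⟩ : ∃ s' t' : ℂ, s * t' - s' * t = 1 := by
    rcases hst with hs | ht
    · exact ⟨0, s⁻¹, by rw [zero_mul, sub_zero, mul_inv_cancel₀ hs]⟩
    · exact ⟨-t⁻¹, 0, by rw [mul_zero, neg_mul, inv_mul_cancel₀ ht]; ring⟩
  obtain ⟨B, hB⟩ : ∃ B : W →ₗ[ℂ] W →ₗ[ℂ] ℂ, ∀ a b, B a b = s * B2 a b + t * B3 a b :=
    ⟨s • B2 + t • B3, fun a b => by simp⟩
  obtain ⟨B', hB'⟩ : ∃ B' : W →ₗ[ℂ] W →ₗ[ℂ] ℂ, ∀ a b, B' a b = s' * B2 a b + t' * B3 a b :=
    ⟨s' • B2 + t' • B3, fun a b => by simp⟩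
  have halt : ∀ a, B a a = 0 := fun a => by rw [hB, h2, h3]; ring
  have halt' : ∀ a, B' a a = 0 := fun a => by rw [hB', h2, h3]; ring
  have sB : ∀ a b, B a b = -B b a := by
    intro a b
    have h1 := halt (a + b)
    simp only [map_add, LinearMap.add_apply, halt] at h1
    linear_combination h1
  have sB' : ∀ a b, B' a b = -B' b a := by
    intro a b
    have h1 := halt' (a + b)
    simp only [map_add, LinearMap.add_apply, halt'] at h1
    linear_combination h1
  have hker' : ∀ v, (∀ a, B v a = 0) → (∀ a, B' v a = 0) → v = 0 := by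
    intro v h4 h5
    refine hker v ?_ ?_
    · intro a
      have e1 := h4 a
      have e2 := h5 a
      rw [hB] at e1
      rw [hB'] at e2
      linear_combination t' * e1 - t * e2 - (B2 v a) * hst'
    · intro a
      have e1 := h4 a
      have e2 := h5 a
      rw [hB] at e1
      rw [hB'] at e2
      linear_combination s * e2 - s' * e1 - (B3 v a) * hst'
  have kB : ∀ a, B k a = 0 := fun a => by rw [hB]; exact hk a
  obtain ⟨a, b, hab⟩ : ∃ a b, B a b ≠ 0 := by
    by_contra hcon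
    push Not at hcon
    rw [LinearIndependent.pair_iff] at hi
    have h1 := hi s t (LinearMap.ext fun a => LinearMap.ext fun b => by
      have := hcon a b
      rw [hB] at this
      simpa using this)
    rcases hst with h4 | h4
    · exact h4 h1.1
    · exact h4 h1.2
  -- the orthogonal space of `a, b`
  obtain ⟨Z, hZ⟩ : ∃ Z : Submodule ℂ W, Z = LinearMap.ker ((B a).prod (B b)) := ⟨_, rfl⟩
  have hmem : ∀ w, w ∈ Z ↔ B a w = 0 ∧ B b w = 0 := by
    intro w
    rw [hZ, LinearMap.ker_prod, Submodule.mem_inf, LinearMap.mem_ker, LinearMap.mem_ker]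
  have hdim : Module.finrank ℂ Z = 2 := by
    have h1 := LinearMap.finrank_range_add_finrank_ker ((B a).prod (B b))
    rw [← hZ] at h1
    have h4 : LinearMap.range ((B a).prod (B b)) = ⊤ := by
      rw [LinearMap.range_eq_top]
      rintro ⟨y1, y2⟩
      refine ⟨((B a b)⁻¹ * y1) • b - ((B a b)⁻¹ * y2) • a, ?_⟩
      refine Prod.ext ?_ ?_
      · change B a (((B a b)⁻¹ * y1) • b - ((B a b)⁻¹ * y2) • a) = y1
        rw [map_sub, map_smul, map_smul, halt, smul_eq_mul, smul_eq_mul]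
        field_simp
        ring
      · change B b (((B a b)⁻¹ * y1) • b - ((B a b)⁻¹ * y2) • a) = y2
        rw [map_sub, map_smul, map_smul, halt, sB b a, smul_eq_mul, smul_eq_mul]
        field_simp
        ring
    rw [h4, finrank_top, Module.finrank_prod, Module.finrank_self, hW] at h1
    omega
  have hkZ : k ∈ Z := by
    rw [hmem, sB a k, sB b k, kB, kB]
    simp
  have hZZ : ∀ y ∈ Z, ∀ z ∈ Z, B y z = 0 := by
    intro y hy z hz
    have h1 : ¬ LinearIndependent ℂ ![(⟨k, hkZ⟩ : Z), ⟨y, hy⟩, ⟨z, hz⟩] := by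
      intro hli
      have := hli.fintype_card_le_finrank
      rw [hdim] at this
      simp at this
    rw [Fintype.not_linearIndependent_iff] at h1
    obtain ⟨g, hg, i, hgi⟩ := h1
    rw [Fin.sum_univ_three] at hg
    have hg' := congrArg (Subtype.val) hg
    simp only [Matrix.cons_val_zero, Matrix.cons_val_one, Matrix.cons_val_two,
      Matrix.head_cons, Matrix.tail_cons, Submodule.coe_add, Submodule.coe_smul,
      Submodule.coe_zero, Matrix.cons_val] at hg'
    have e1 := congrArg (B z) hg'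
    have e2 := congrArg (B y) hg'
    rw [map_add, map_add, map_smul, map_smul, map_smul, sB z k, kB, halt, map_zero] at e1
    rw [map_add, map_add, map_smul, map_smul, map_smul, sB y k, kB, halt, map_zero] at e2
    simp only [neg_zero, smul_zero, mul_zero, zero_add, add_zero, smul_eq_mul] at e1 e2
    rcases mul_eq_zero.1 e1 with e3 | e3
    · rcases mul_eq_zero.1 e2 with e4 | e4
      · exfalso
        rw [e3, e4, zero_smul, zero_smul, add_zero, add_zero] at hg'
        rcases smul_eq_zero.1 hg' with e5 | e5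
        · fin_cases i
          · exact hgi e5
          · exact hgi e3
          · exact hgi e4
        · exact hk0 e5
      · exact e4
    · rw [sB, e3, neg_zero]
  have hZB : ∀ y ∈ Z, ∀ w, B y w = 0 := by
    intro y hy w
    have h1 : w - (-((B a b)⁻¹ * B b w)) • a - ((B a b)⁻¹ * B a w) • b ∈ Z := by
      rw [hmem]
      constructor
      · rw [map_sub, map_sub, map_smul, map_smul, halt, smul_eq_mul, smul_eq_mul]
        field_simp
        ring
      · rw [map_sub, map_sub, map_smul, map_smul, halt, sB b a, smul_eq_mul, smul_eq_mul]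
        field_simp
        ring
    have h4 := hZZ y hy _ h1
    rw [hmem] at hy
    rw [map_sub, map_sub, map_smul, map_smul, sB y a, sB y b, hy.1, hy.2] at h4
    simpa using h4
  -- a basis of `Z`
  obtain ⟨bz⟩ : Nonempty (Module.Basis (Fin 2) ℂ Z) := ⟨Module.finBasisOfFinrankEq ℂ Z hdim⟩
  obtain ⟨k1, hk1⟩ : ∃ k1 : W, k1 = bz 0 := ⟨_, rfl⟩
  obtain ⟨k2, hk2⟩ : ∃ k2 : W, k2 = bz 1 := ⟨_, rfl⟩
  have k1Z : k1 ∈ Z := by rw [hk1]; exact (bz 0).2
  have k2Z : k2 ∈ Z := by rw [hk2]; exact (bz 1).2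
  have hind : ∀ α β : ℂ, α • k1 + β • k2 = 0 → α = 0 ∧ β = 0 := by
    intro α β h0
    have h1 := bz.linearIndependent
    rw [Fintype.linearIndependent_iff] at h1
    have h4 := h1 ![α, β] (by
      rw [Fin.sum_univ_two]
      apply Subtype.ext
      rw [hk1, hk2] at h0
      simpa using h0)
    exact ⟨h4 0, h4 1⟩
  have hspan : ∀ y ∈ Z, ∃ α β : ℂ, y = α • k1 + β • k2 := by
    intro y hy
    refine ⟨bz.repr ⟨y, hy⟩ 0, bz.repr ⟨y, hy⟩ 1, ?_⟩
    have h1 := bz.sum_repr ⟨y, hy⟩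
    rw [Fin.sum_univ_two] at h1
    have h4 := congrArg Subtype.val h1
    rw [hk1, hk2]
    simpa using h4.symm
  -- the relation
  have hrel : ∀ x y, B' k1 k2 * (s * P x y + t * Q x y) + B' k2 y * (s * P x k1 + t * Q x k1)
      + B' y k1 * (s * P x k2 + t * Q x k2) = 0 := by
    intro x y
    have h1 := h x k1 k2 y
    have z1 := hZB k1 k1Z k2
    have z2 := hZB k2 k2Z y
    have z3 := hZB k1 k1Z y
    have z4 : B y k1 = 0 := by rw [sB, z3, neg_zero]
    rw [hB] at z1 z2 z4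
    rw [hB', hB', hB']
    simp only [cyc] at h1
    linear_combination (-1 : ℂ) * h1 * (s * t' - s' * t)
      + (s' * P x y + t' * Q x y) * z1 + (s' * P x k1 + t' * Q x k1) * z2
      + (s' * P x k2 + t' * Q x k2) * z4
  refine ⟨s, t, hst, ?_⟩
  by_cases hkk : B' k1 k2 = 0
  · refine ⟨Z, by rw [hW, hdim], ?_⟩
    have hk12 : ∀ x, (s * P x k1 + t * Q x k1) = 0 ∧ (s * P x k2 + t * Q x k2) = 0 := by
      intro x
      have h1 : (-(s * P x k2 + t * Q x k2)) • k1 + (s * P x k1 + t * Q x k1) • k2 = 0 := by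
        apply hker'
        · intro y
          exact hZB _ (Submodule.add_mem _ (Submodule.smul_mem _ _ k1Z)
            (Submodule.smul_mem _ _ k2Z)) y
        · intro y
          have h4 := hrel x y
          rw [hkk, sB' y k1] at h4
          simp only [map_add, map_smul, LinearMap.add_apply, LinearMap.smul_apply, smul_eq_mul]
          linear_combination h4
      have h4 := hind _ _ h1
      exact ⟨h4.2, neg_eq_zero.1 h4.1⟩
    intro v hv x
    obtain ⟨α, β, rfl⟩ := hspan v hv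
    have h4 := hk12 x
    simp only [map_add, map_smul, LinearMap.add_apply, LinearMap.smul_apply, smul_eq_mul]
    linear_combination α * h4.1 + β * h4.2
  · obtain ⟨T, hT⟩ : ∃ T : W →ₗ[ℂ] W, ∀ y, T y = B' k1 k2 • y + B' k2 y • k1 + B' y k1 • k2 :=
      ⟨(B' k1 k2) • LinearMap.id + (B' k2).smulRight k1 + (B'.flip k1).smulRight k2,
        fun d => by simp⟩
    refine ⟨LinearMap.range T, ?_, ?_⟩
    · have h1 := LinearMap.finrank_range_add_finrank_ker T
      have h4 : LinearMap.ker T ≤ Z := by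
        intro y hy
        rw [LinearMap.mem_ker, hT] at hy
        have h5 : (B' k1 k2)⁻¹ • (B' k1 k2 • y + B' k2 y • k1 + B' y k1 • k2) = 0 := by
          rw [hy, smul_zero]
        rw [smul_add, smul_add, smul_smul, inv_mul_cancel₀ hkk, one_smul] at h5
        have h6 : y = -((B' k1 k2)⁻¹ • B' k2 y • k1) - (B' k1 k2)⁻¹ • B' y k1 • k2 := by
          have h7 : y = (y + (B' k1 k2)⁻¹ • B' k2 y • k1 + (B' k1 k2)⁻¹ • B' y k1 • k2)
            + (-((B' k1 k2)⁻¹ • B' k2 y • k1) - (B' k1 k2)⁻¹ • B' y k1 • k2) := by abel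
          rw [h5, zero_add] at h7
          exact h7
        rw [h6]
        exact Submodule.sub_mem _ (Submodule.neg_mem _ (Submodule.smul_mem _ _
          (Submodule.smul_mem _ _ k1Z))) (Submodule.smul_mem _ _ (Submodule.smul_mem _ _ k2Z))
      have h5 := Submodule.finrank_mono h4
      omega
    · rintro _ ⟨y, rfl⟩ x
      have h1 := hrel x y
      rw [hT]
      simp only [map_add, map_smul, LinearMap.add_apply, LinearMap.smul_apply, smul_eq_mul]
      linear_combination h1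

theorem la2 (hW : 4 ≤ Module.finrank ℂ W) {B2 B3 : W →ₗ[ℂ] W →ₗ[ℂ] ℂ} (h2 : ∀ a, B2 a a = 0)
    (h3 : ∀ a, B3 a a = 0) (hi : LinearIndependent ℂ ![B2, B3]) (P Q : V →ₗ[ℂ] W →ₗ[ℂ] ℂ)
    (h : ∀ x a b c, cyc B2 (Q x) a b c = cyc B3 (P x) a b c) :
    (∃ c d : ℂ, (c ≠ 0 ∨ d ≠ 0) ∧ ∃ D : Submodule ℂ W, Module.finrank ℂ W ≤ Module.finrank ℂ D + 2 ∧
      ∀ v ∈ D, ∀ x, (c • P x + d • Q x) v = 0) ∨
    ∃ v : W, v ≠ 0 ∧ ∀ x, P x v = 0 ∧ Q x v = 0 := by
  by_cases hker : ∀ v, (∀ a, B2 v a = 0) → (∀ a, B3 v a = 0) → v = 0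
  · left
    by_cases h4 : Module.finrank ℂ W = 4
    · exact la_four h4 h2 h3 hi hker P Q h
    · by_cases hind : ∃ x0, LinearIndependent ℂ ![P x0, Q x0]
      · obtain ⟨x0, hx0⟩ := hind
        exact la_ind (by omega) h2 h3 hker P Q h x0 hx0
      · push Not at hind
        exact la_dep P Q hind
  · right
    push Not at hker
    obtain ⟨v, hv2, hv3, hv⟩ := hker
    refine ⟨v, hv, fun x => ?_⟩
    rw [LinearIndependent.pair_iff] at hi
    have s2 : ∀ a, B2 a v = 0 := by
      intro a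
      have h1 := h2 (a + v)
      simp only [map_add, LinearMap.add_apply, h2, hv2] at h1
      linear_combination h1
    have s3 : ∀ a, B3 a v = 0 := by
      intro a
      have h1 := h3 (a + v)
      simp only [map_add, LinearMap.add_apply, h3, hv3] at h1
      linear_combination h1
    have h1 := hi (Q x v) (-(P x v)) (LinearMap.ext fun a => LinearMap.ext fun b => by
      have h4 := h x a b v
      simp only [cyc, hv2, hv3, s2, s3] at h4
      simp only [LinearMap.add_apply, LinearMap.smul_apply, smul_eq_mul, LinearMap.zero_apply]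
      linear_combination h4)
    exact ⟨neg_eq_zero.1 h1.2, h1.1⟩

end Pool.Agent.Helper60.FC
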