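import Pool.Agent.Helper60.FC.CaseA0
import Pool.Agent.Helper60.FC.LinA

/-!
P4-5: case `m = c X_0`: family (1,2,2).

Let `P_ij = ∂_(i+1) p_j`, `Q_ij = ∂_(i+1) q_j` (constants), `B2_ij = P_ij - P_ji`, `B3_ij = Q_ij - Q_ji`.  Closedness `(i+1, j+1, l+1)` of
`θ_(i+1)(j+1) = c X_0 (p_i q_j - p_j q_i)`, divided by `c X_0`: `∑ cyc (B2_ij q_l - B3_ij p_l) = 0`.
If `B2 = B3 = 0`: `caseA0`.  Otherwise let `W = Fin k → ℂ`, `V = Fin (k+1) → ℂ`, `P x v = ∑ v_i p_i(x)`, `Q x v = ∑ v_i q_i(x)` and `B2, B3` the
bilinear forms with these matrices; `cyc B2 (Q x) = cyc B3 (P x)` (check on basis vectors, trilinear).  If `d B2 + e B3 = 0` with `(d, e) ≠ 0`: then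
`B ∧ (.. ) = 0` for `B = B2` (if `e ≠ 0`, `B3 = κ B2`, `R = Q - κ P`) or `B = B3` (`B2 = 0`, `R = P`): `la1` contradicts `nt`.  If `B2, B3` are independent: `la2`,
the first alternative contradicts `nt` and the second `Ad.nc` (a linear form vanishing at all points is zero, `MvPolynomial.funext`). -/

set_option autoImplicit false

namespace Pool.Agent.Helper60.FC

open MvPolynomial
open scoped BigOperators
open Pool.Agent.Helper71.FC
open Pool.Agent.Helper71.FL (w12 pf ct Dec Closed dd)

variable {n k : ℕ}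

private theorem p45_eval (a : Fin n → ℂ) (x : Fin n → ℂ) : eval x (lf a) = ∑ t, a t * x t := by
  unfold lf
  rw [map_sum]
  refine Finset.sum_congr rfl fun t _ => ?_
  rw [map_mul, eval_C, eval_X]

private theorem p45_pd (a : Fin n → ℂ) (i : Fin n) : pderiv i (lf a) = C (a i) := by
  unfold lf
  rw [map_sum, Finset.sum_eq_single i]
  · rw [pderiv_C_mul, pderiv_X_self, mul_one]
  · intro j _ hj
    rw [pderiv_C_mul, pderiv_X_of_ne hj, mul_zero]
  · intro h
    exact absurd (Finset.mem_univ _) h

/-- bilinear form of a matrix -/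
private noncomputable def p45_B (M : Fin k → Fin k → ℂ) :
    (Fin k → ℂ) →ₗ[ℂ] (Fin k → ℂ) →ₗ[ℂ] ℂ :=
  LinearMap.mk₂ ℂ (fun u v => ∑ i, ∑ j, u i * v j * M i j)
    (by
      intro u u' v
      rw [← Finset.sum_add_distrib]
      refine Finset.sum_congr rfl fun i _ => ?_
      rw [← Finset.sum_add_distrib]
      refine Finset.sum_congr rfl fun j _ => ?_
      rw [Pi.add_apply]; ring)
    (by
      intro c u v
      rw [smul_eq_mul, Finset.mul_sum]
      refine Finset.sum_congr rfl fun i _ => ?_
      rw [Finset.mul_sum]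
      refine Finset.sum_congr rfl fun j _ => ?_
      rw [Pi.smul_apply, smul_eq_mul]; ring)
    (by
      intro u v v'
      rw [← Finset.sum_add_distrib]
      refine Finset.sum_congr rfl fun i _ => ?_
      rw [← Finset.sum_add_distrib]
      refine Finset.sum_congr rfl fun j _ => ?_
      rw [Pi.add_apply]; ring)
    (by
      intro c u v
      rw [smul_eq_mul, Finset.mul_sum]
      refine Finset.sum_congr rfl fun i _ => ?_
      rw [Finset.mul_sum]
      refine Finset.sum_congr rfl fun j _ => ?_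
      rw [Pi.smul_apply, smul_eq_mul]; ring)

private theorem p45_B_apply (M : Fin k → Fin k → ℂ) (u v : Fin k → ℂ) :
    p45_B M u v = ∑ i, ∑ j, u i * v j * M i j := rfl

/-- the family of functionals of a vector of linear forms -/
private noncomputable def p45_P (a : Fin k → Fin n → ℂ) :
    (Fin n → ℂ) →ₗ[ℂ] (Fin k → ℂ) →ₗ[ℂ] ℂ :=
  LinearMap.mk₂ ℂ (fun x v => ∑ i, v i * ∑ t, a i t * x t)
    (by
      intro x x' v
      rw [← Finset.sum_add_distrib]
      refine Finset.sum_congr rfl fun i _ => ?_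
      rw [← mul_add, ← Finset.sum_add_distrib]
      congr 1
      refine Finset.sum_congr rfl fun j _ => ?_
      rw [Pi.add_apply]; ring)
    (by
      intro c x v
      rw [smul_eq_mul, Finset.mul_sum]
      refine Finset.sum_congr rfl fun i _ => ?_
      rw [mul_left_comm, Finset.mul_sum _ _ c]
      congr 1
      refine Finset.sum_congr rfl fun j _ => ?_
      rw [Pi.smul_apply, smul_eq_mul, mul_left_comm])
    (by
      intro x v v'
      rw [← Finset.sum_add_distrib]
      refine Finset.sum_congr rfl fun i _ => ?_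
      rw [Pi.add_apply, add_mul])
    (by
      intro c x v
      rw [smul_eq_mul, Finset.mul_sum]
      refine Finset.sum_congr rfl fun i _ => ?_
      rw [Pi.smul_apply, smul_eq_mul]; ring)

private theorem p45_P_apply (a : Fin k → Fin n → ℂ) (x : Fin n → ℂ) (v : Fin k → ℂ) :
    p45_P a x v = ∑ i, v i * eval x (lf (a i)) := by
  simp only [p45_eval]
  rfl

private theorem p45_rot (F : Fin k → Fin k → Fin k → ℂ) :
    ∑ i, ∑ j, ∑ l, F i j l = ∑ j, ∑ l, ∑ i, F i j l := by
  rw [Finset.sum_comm]
  exact Finset.sum_congr rfl fun j _ => Finset.sum_comm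

private theorem p45_mul (M : Fin k → Fin k → ℂ) (N : Fin k → ℂ) (u v w : Fin k → ℂ) :
    (∑ i, ∑ j, u i * v j * M i j) * (∑ l, w l * N l) =
      ∑ i, ∑ j, ∑ l, u i * v j * w l * (M i j * N l) := by
  rw [Finset.sum_mul]
  refine Finset.sum_congr rfl fun i _ => ?_
  rw [Finset.sum_mul]
  refine Finset.sum_congr rfl fun j _ => ?_
  rw [Finset.mul_sum]
  refine Finset.sum_congr rfl fun l _ => ?_
  ring

private theorem p45_cyc (M : Fin k → Fin k → ℂ) (a : Fin k → Fin n → ℂ) (x : Fin n → ℂ)
    (u v w : Fin k → ℂ) :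
    cyc (p45_B M) (p45_P a x) u v w = ∑ i, ∑ j, ∑ l, u i * v j * w l *
      (M i j * eval x (lf (a l)) + M j l * eval x (lf (a i)) + M l i * eval x (lf (a j))) := by
  unfold cyc
  rw [p45_B_apply, p45_B_apply, p45_B_apply, p45_P_apply, p45_P_apply, p45_P_apply, p45_mul,
    p45_mul, p45_mul]
  have h1 : ∑ i, ∑ j, ∑ l, v i * w j * u l * (M i j * eval x (lf (a l))) =
      ∑ i, ∑ j, ∑ l, u i * v j * w l * (M j l * eval x (lf (a i))) := by
    rw [← p45_rot (fun i j l => v j * w l * u i * (M j l * eval x (lf (a i))))]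
    refine Finset.sum_congr rfl fun i _ => Finset.sum_congr rfl fun j _ =>
      Finset.sum_congr rfl fun l _ => ?_
    ring
  have h2 : ∑ i, ∑ j, ∑ l, w i * u j * v l * (M i j * eval x (lf (a l))) =
      ∑ i, ∑ j, ∑ l, u i * v j * w l * (M l i * eval x (lf (a j))) := by
    rw [p45_rot (fun i j l => w i * u j * v l * (M i j * eval x (lf (a l))))]
    refine Finset.sum_congr rfl fun i _ => Finset.sum_congr rfl fun j _ =>
      Finset.sum_congr rfl fun l _ => ?_
    ring
  rw [h1, h2, ← Finset.sum_add_distrib, ← Finset.sum_add_distrib]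
  refine Finset.sum_congr rfl fun i _ => ?_
  rw [← Finset.sum_add_distrib, ← Finset.sum_add_distrib]
  refine Finset.sum_congr rfl fun j _ => ?_
  rw [← Finset.sum_add_distrib, ← Finset.sum_add_distrib]
  refine Finset.sum_congr rfl fun l _ => ?_
  ring

private theorem p45_rk {p q : Fin k → Pn n} {c d : ℂ} {D : Submodule ℂ (Fin k → ℂ)}
    (hD : Module.finrank ℂ (Fin k → ℂ) ≤ Module.finrank ℂ D + 2)
    (h : ∀ v ∈ D, ∀ x : Fin n → ℂ,
      c * (∑ i, v i * eval x (p i)) + d * (∑ i, v i * eval x (q i)) = 0) :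
    Rk2 (fun i => C c * p i + C d * q i) := by
  refine ⟨D, by rwa [Module.finrank_fin_fun] at hD, fun v hv => ?_⟩
  refine MvPolynomial.funext fun x => ?_
  rw [map_sum, map_zero, ← h v hv x, Finset.mul_sum, Finset.mul_sum, ← Finset.sum_add_distrib]
  refine Finset.sum_congr rfl fun i _ => ?_
  simp only [map_mul, map_add, eval_C]
  ring

theorem caseA_rel {θ : F2 (k + 1)} {c : ℂ} (hc : c ≠ 0) {p q : Fin k → Pn (k + 1)}
    {r s : Pn (k + 1)} (h : Ad θ (C c * X 0) p q r s) (i j l : Fin k) :
    (pderiv i.succ (p j) - pderiv j.succ (p i)) * q l +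
      (pderiv j.succ (p l) - pderiv l.succ (p j)) * q i +
      (pderiv l.succ (p i) - pderiv i.succ (p l)) * q j =
    (pderiv i.succ (q j) - pderiv j.succ (q i)) * p l +
      (pderiv j.succ (q l) - pderiv l.succ (q j)) * p i +
      (pderiv l.succ (q i) - pderiv i.succ (q l)) * p j := by
  have hx : ∀ (i : Fin k) (f : Pn (k + 1)), pderiv i.succ (C c * X 0 * f) =
      C c * X 0 * pderiv i.succ f := by
    intro i f
    rw [mul_assoc, pderiv_C_mul, pderiv_mul, pderiv_X_of_ne (Fin.succ_ne_zero i).symm, zero_mul,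
      zero_add, mul_assoc]
  have hcl := h.closed i.succ j.succ l.succ
  rw [h.e1, h.e1, h.e1, hx, hx, hx] at hcl
  simp only [map_sub, pderiv_mul] at hcl
  have h0 : (C c * X 0 : Pn (k + 1)) ≠ 0 := mul_ne_zero (by rwa [Ne, C_eq_zero]) (X_ne_zero 0)
  apply mul_left_cancel₀ h0
  linear_combination hcl

theorem caseA (hk : 4 ≤ k) {θ : F2 (k + 1)} {c : ℂ} (hc : c ≠ 0) {p q : Fin k → Pn (k + 1)}
    {r s : Pn (k + 1)} (h : Ad θ (C c * X 0) p q r s) : Fam3 ![1, 2, 2] θ := by
  have hpl := fun i => lf_of_hom (h.hp i)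
  have hql := fun i => lf_of_hom (h.hq i)
  choose a ha using hpl
  choose b hb using hql
  set M2 : Fin k → Fin k → ℂ := fun i j => a j i.succ - a i j.succ with hM2
  set M3 : Fin k → Fin k → ℂ := fun i j => b j i.succ - b i j.succ with hM3
  have hrel : ∀ x u v w, cyc (p45_B M2) (p45_P b x) u v w = cyc (p45_B M3) (p45_P a x) u v w := by
    intro x u v w
    rw [p45_cyc, p45_cyc]
    refine Finset.sum_congr rfl fun i _ => Finset.sum_congr rfl fun j _ =>
      Finset.sum_congr rfl fun l _ => ?_
    congr 1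
    have h1 := congrArg (eval x) (caseA_rel hc h i j l)
    simp only [ha, hb, p45_pd, map_add, map_mul, map_sub, eval_C] at h1
    exact h1
  by_cases h0 : (∀ i j, M2 i j = 0) ∧ ∀ i j, M3 i j = 0
  · refine caseA0 hk hc h (fun i j => ?_) (fun i j => ?_)
    · rw [ha, ha, p45_pd, p45_pd]
      rw [sub_eq_zero.mp (h0.1 i j)]
    · rw [hb, hb, p45_pd, p45_pd]
      rw [sub_eq_zero.mp (h0.2 i j)]
  · exfalso
    have halt : ∀ (d : Fin k → Fin (k + 1) → ℂ) (u : Fin k → ℂ),
        p45_B (fun i j => d j i.succ - d i j.succ) u u = 0 := by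
      intro d u
      rw [p45_B_apply]
      have e1 : ∑ i, ∑ j, u i * u j * (d j i.succ - d i j.succ) =
          (∑ i, ∑ j, u i * u j * d j i.succ) - ∑ i, ∑ j, u i * u j * d i j.succ := by
        rw [← Finset.sum_sub_distrib]
        refine Finset.sum_congr rfl fun i _ => ?_
        rw [← Finset.sum_sub_distrib]
        refine Finset.sum_congr rfl fun j _ => ?_
        ring
      rw [e1, Finset.sum_comm, sub_eq_zero]
      refine Finset.sum_congr rfl fun i _ => Finset.sum_congr rfl fun j _ => ?_
      ring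
    have hzero : ∀ M : Fin k → Fin k → ℂ, p45_B M = 0 → ∀ i j, M i j = 0 := by
      intro M hM i j
      have e1 := p45_B_apply M (Pi.single i 1) (Pi.single j 1)
      rw [hM, Finset.sum_eq_single i, Finset.sum_eq_single j] at e1
      · simpa using e1.symm
      · intro l _ hl
        rw [Pi.single_eq_of_ne hl]; ring
      · intro hh; exact absurd (Finset.mem_univ _) hh
      · intro l _ hl
        refine Finset.sum_eq_zero fun m _ => ?_
        rw [Pi.single_eq_of_ne hl]; ring
      · intro hh; exact absurd (Finset.mem_univ _) hh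
    by_cases hi : LinearIndependent ℂ ![p45_B M2, p45_B M3]
    · rcases la2 (by rw [Module.finrank_fin_fun]; exact hk) (halt a) (halt b) hi (p45_P a) (p45_P b)
        hrel with ⟨c', d', hcd, D, hD, hDv⟩ | ⟨v, hv, hvx⟩
      · refine h.nt c' d' hcd (p45_rk hD fun v hv x => ?_)
        have e1 := hDv v hv x
        rw [LinearMap.add_apply, LinearMap.smul_apply, LinearMap.smul_apply, p45_P_apply,
          p45_P_apply, smul_eq_mul, smul_eq_mul] at e1
        simp only [ha, hb]
        exact e1
      · refine hv (h.nc (MvPolynomial.funext fun x => ?_) (MvPolynomial.funext fun x => ?_))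
        · rw [map_sum, map_zero, ← (hvx x).1, p45_P_apply]
          refine Finset.sum_congr rfl fun i _ => ?_
          rw [map_mul, eval_C, ha]
        · rw [map_sum, map_zero, ← (hvx x).2, p45_P_apply]
          refine Finset.sum_congr rfl fun i _ => ?_
          rw [map_mul, eval_C, hb]
    · rw [LinearIndependent.pair_iff] at hi
      push Not at hi
      obtain ⟨σ, τ, hst, hne⟩ := hi
      by_cases hτ : τ = 0
      · subst hτ
        have hσ : σ ≠ 0 := fun hσ => hne hσ rfl
        rw [zero_smul, add_zero] at hst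
        have hB2 : p45_B M2 = 0 := (smul_eq_zero.mp hst).resolve_left hσ
        have hB3 : p45_B M3 ≠ 0 := fun hB3 => h0 ⟨hzero _ hB2, hzero _ hB3⟩
        obtain ⟨D, hD, hDv⟩ := la1 (halt b) hB3 (p45_P a) (fun x u v w => by
          have e1 := hrel x u v w
          rw [hB2] at e1
          refine e1.symm.trans ?_
          unfold cyc
          simp)
        refine h.nt 1 0 (Or.inl one_ne_zero) (p45_rk hD fun v hv x => ?_)
        have e1 := hDv v hv x
        rw [p45_P_apply] at e1
        simp only [ha, hb]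
        rw [e1]
        ring
      · have hB3 : p45_B M3 = (-(τ⁻¹ * σ)) • p45_B M2 := by
          have e1 : p45_B M3 = τ⁻¹ • (τ • p45_B M3) := by
            rw [smul_smul, inv_mul_cancel₀ hτ, one_smul]
          rw [e1, eq_neg_of_add_eq_zero_right hst, smul_neg, smul_smul]
          exact (neg_smul _ _).symm
        have hB2 : p45_B M2 ≠ 0 := by
          intro hB2
          rw [hB2, smul_zero] at hB3
          exact h0 ⟨hzero _ hB2, hzero _ hB3⟩
        obtain ⟨D, hD, hDv⟩ := la1 (V := Fin (k + 1) → ℂ) (halt a) hB2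
          (fun x => p45_P b x - (-(τ⁻¹ * σ)) • p45_P a x) (fun x u v w => by
          have e1 := hrel x u v w
          rw [hB3] at e1
          unfold cyc at e1 ⊢
          simp only [LinearMap.smul_apply, LinearMap.sub_apply, smul_eq_mul] at e1 ⊢
          linear_combination e1)
        refine h.nt (τ⁻¹ * σ) 1 (Or.inr one_ne_zero) (p45_rk hD fun v hv x => ?_)
        have e1 := hDv v hv x
        simp only [LinearMap.smul_apply, LinearMap.sub_apply, smul_eq_mul, p45_P_apply] at e1
        simp only [ha, hb]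
        linear_combination e1

end Pool.Agent.Helper60.FC
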