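import Pool.Agent.Helper60.FC.Top
import Pool.Agent.Helper50.FC.Poin

/-!
P4-4: case `m = c X_0`, `p, q` closed: `θ` is in the family (1,2,2).

`span_of_wedge`: `p, q, f` rows of linear forms with `f ∧ p ∧ q = 0`, i.e. `f_i Δ_jl + f_j Δ_li + f_l Δ_ij = 0`, `Δ_ij = p_i q_j - p_j q_i`.  Then
`(f_i q_j - f_j q_i) Δ_kl = (f_k q_l - f_l q_k) Δ_ij` (expand `f_i Δ_kl = f_k Δ_il - f_l Δ_ik`, same for `f_j`), so `div1_hom` for the vector `Δ` indexed by pairs
(coprime by `prim_minor`) gives a constant `α` with `f_i q_j - f_j q_i = α Δ_ij`; in the same way `p_i f_j - p_j f_i = β Δ_ij`; then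
`(α p_i + β q_i) Δ_kl = f_i Δ_kl`, cancel some `Δ_kl ≠ 0`.
`caseA0`: `poincare_rel` with `J = univ \ {0}` gives quadrics `Q2, Q3` with `∂_(i+1) Q2 = p_i`, `∂_(i+1) Q3 = q_i`.  Put `r' = r + c X_0 ∂_0 Q2`,
`s' = s + c X_0 ∂_0 Q3`.  Closedness `(0, i+1, j+1)`: `c Δ_ij + (f_i q_j - f_j q_i) + (p_i g_j - p_j g_i) = 0` with `f_i = ∂_(i+1) r'`, `g_i = ∂_(i+1) s'`
(`∂_0 (c X_0 Δ_ij)` is cancelled by the derivatives of `c X_0 ∂_0 Q`).  Wedge with `p` resp. `q`: `g ∧ p ∧ q = 0 = f ∧ p ∧ q`; so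
`f = α p + β q`, `g = α' p + β' q`, `c + α + β' = 0`; `r' - α Q2 - β Q3` and `s' - α' Q2 - β' Q3` have no derivatives in the directions `i+1`, so they are
multiples of `X_0²` (Euler).  `Fam3 ![1,2,2]` with `Φ = (X_0, Q2, Q3)`, `r_0 = c Y_0`, `r_1 = κ Y_0² + α Y_1 + β Y_2`, `r_2 = κ' Y_0² + α' Y_1 + β' Y_2`. -/

set_option autoImplicit false

namespace Pool.Agent.Helper60.FC

open MvPolynomial
open scoped BigOperators
open Pool.Agent.Helper71.FC
open Pool.Agent.Helper71.FL (w12 pf ct Dec Closed dd)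
open Pool.Agent.Helper50.FC (Prim)

variable {n k : ℕ}

private theorem const_of_hom0 {g : Pn n} (hg : g.IsHomogeneous 0) : ∃ a : ℂ, g = C a := by
  have h1 := hg.totalDegree_le
  have h2 : g.totalDegree = 0 := by omega
  rw [totalDegree_eq_zero_iff_eq_C] at h2
  exact ⟨_, h2⟩

theorem span_of_wedge {p q f : Fin k → Pn n} (hp : ∀ i, (p i).IsHomogeneous 1)
    (hq : ∀ i, (q i).IsHomogeneous 1) (hf : ∀ i, (f i).IsHomogeneous 1)
    (hprim : Prim (fun e : Fin k × Fin k => p e.1 * q e.2 - p e.2 * q e.1))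
    (h : ∀ i j l, f i * (p j * q l - p l * q j) + f j * (p l * q i - p i * q l) +
      f l * (p i * q j - p j * q i) = 0) :
    ∃ α β : ℂ, ∀ i, f i = C α * p i + C β * q i := by
  have hh : ∀ (a b : Fin k → Pn n), (∀ i, (a i).IsHomogeneous 1) → (∀ i, (b i).IsHomogeneous 1) →
      ∀ e : Fin k × Fin k, (a e.1 * b e.2 - a e.2 * b e.1).IsHomogeneous 2 := by
    intro a b ha hb e
    exact ((ha e.1).mul (hb e.2)).sub ((ha e.2).mul (hb e.1))
  obtain ⟨g1, hg1, -, hg1e⟩ := Pool.Agent.Helper50.FC.div1_hom (a := 2) (b := 2) hprim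
    (ξ := fun e : Fin k × Fin k => f e.1 * q e.2 - f e.2 * q e.1) (by
      rintro ⟨i, j⟩ ⟨a, b⟩
      unfold w11
      simp only
      linear_combination q j * h i a b - q i * h j a b) (hh f q hf hq) (hh p q hp hq)
  obtain ⟨g2, hg2, -, hg2e⟩ := Pool.Agent.Helper50.FC.div1_hom (a := 2) (b := 2) hprim
    (ξ := fun e : Fin k × Fin k => p e.1 * f e.2 - p e.2 * f e.1) (by
      rintro ⟨i, j⟩ ⟨a, b⟩
      unfold w11
      simp only
      linear_combination p i * h j a b - p j * h i a b) (hh p f hp hf) (hh p q hp hq)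
  obtain ⟨α, rfl⟩ := const_of_hom0 hg1
  obtain ⟨β, rfl⟩ := const_of_hom0 hg2
  obtain ⟨a, b, hab⟩ : ∃ a b, p a * q b - p b * q a ≠ 0 := by
    by_contra hcon
    push Not at hcon
    have h1 := hprim 0 (fun e => by
      show (0 : Pn n) ∣ p e.1 * q e.2 - p e.2 * q e.1
      rw [hcon])
    exact not_isUnit_zero h1
  refine ⟨α, β, fun i => ?_⟩
  apply mul_right_cancel₀ hab
  have h1 := hg1e (a, b)
  have h2 := hg2e (a, b)
  simp only at h1 h2
  linear_combination h i a b + p i * h1 + q i * h2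

private theorem X0_sq {D : Pn (k + 1)} (hD : D.IsHomogeneous 2)
    (h : ∀ i : Fin k, pderiv i.succ D = 0) : ∃ κ : ℂ, D = C κ * X 0 ^ 2 := by
  have h1 : ∑ j, X j * pderiv j D = (2 : ℕ) • D := hD.sum_X_mul_pderiv
  rw [Fin.sum_univ_succ] at h1
  simp only [h, mul_zero, Finset.sum_const_zero, add_zero] at h1
  have hE : (pderiv 0 D).IsHomogeneous 1 := hD.pderiv
  have h2 : ∑ j, X j * pderiv j (pderiv 0 D) = (1 : ℕ) • pderiv 0 D := hE.sum_X_mul_pderiv
  rw [Fin.sum_univ_succ] at h2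
  have h3 : ∀ i : Fin k, pderiv i.succ (pderiv 0 D) = 0 := by
    intro i
    rw [Pool.Agent.Helper50.FC.pd_comm, h, map_zero]
  simp only [h3, mul_zero, Finset.sum_const_zero, add_zero, one_smul] at h2
  have hE2 : (pderiv 0 (pderiv 0 D)).IsHomogeneous 0 := hE.pderiv
  obtain ⟨e, he⟩ := const_of_hom0 hE2
  refine ⟨e / 2, ?_⟩
  rw [he] at h2
  rw [← h2, nsmul_eq_mul] at h1
  have h4 : (2 : Pn (k + 1)) ≠ 0 := by norm_num
  apply mul_left_cancel₀ h4
  have h5 : (2 : Pn (k + 1)) * C (e / 2) = C e := by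
    have : (2 : Pn (k + 1)) = C 2 := by rw [map_ofNat]
    rw [this, ← C_mul]
    congr 1
    ring
  push_cast at h1
  linear_combination -h1 - X 0 ^ 2 * h5

theorem caseA0 (hk : 4 ≤ k) {θ : F2 (k + 1)} {c : ℂ} (hc : c ≠ 0) {p q : Fin k → Pn (k + 1)}
    {r s : Pn (k + 1)} (h : Ad θ (C c * X 0) p q r s)
    (hp : ∀ i j : Fin k, pderiv i.succ (p j) = pderiv j.succ (p i))
    (hq : ∀ i j : Fin k, pderiv i.succ (q j) = pderiv j.succ (q i)) : Fam3 ![1, 2, 2] θ := by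
  classical
  have hprim := prim_minor (by omega : 3 ≤ k) h.hp h.hq h.nt
  -- potentials
  have hpot : ∀ a : Fin k → Pn (k + 1), (∀ i, (a i).IsHomogeneous 1) →
      (∀ i j : Fin k, pderiv i.succ (a j) = pderiv j.succ (a i)) →
      ∃ Q : Pn (k + 1), Q.IsHomogeneous 2 ∧ ∀ i : Fin k, pderiv i.succ Q = a i := by
    intro a ha hcl
    obtain ⟨Q, hQ, hQd⟩ := Pool.Agent.Helper50.FC.poincare_rel
      ((Finset.univ : Finset (Fin k)).image Fin.succ) (Fin.cons 0 a : F1 (k + 1)) 1 (by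
        intro j hj
        obtain ⟨i, _, rfl⟩ := Finset.mem_image.mp hj
        rw [Fin.cons_succ]
        exact ha i) (by
        intro i hi j hj
        obtain ⟨i, _, rfl⟩ := Finset.mem_image.mp hi
        obtain ⟨j, _, rfl⟩ := Finset.mem_image.mp hj
        rw [Fin.cons_succ, Fin.cons_succ]
        exact hcl i j)
    refine ⟨Q, hQ, fun i => ?_⟩
    rw [hQd i.succ (Finset.mem_image_of_mem _ (Finset.mem_univ i)), Fin.cons_succ]
  obtain ⟨Q2, hQ2, hQ2d⟩ := hpot p h.hp hp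
  obtain ⟨Q3, hQ3, hQ3d⟩ := hpot q h.hq hq
  have hX0 : ∀ i : Fin k, pderiv i.succ (X 0 : Pn (k + 1)) = 0 := by
    intro i
    rw [pderiv_X_of_ne (Fin.succ_ne_zero i).symm]
  have hX1 : pderiv 0 (X 0 : Pn (k + 1)) = 1 := pderiv_X_self 0
  have hpC : ∀ (i : Fin (k + 1)) (u : Pn (k + 1)), pderiv i (C c * u) = C c * pderiv i u := by
    intro i u
    rw [pderiv_C_mul]
  -- derivatives of `r'` and `s'`
  have hf : ∀ (t Q : Pn (k + 1)) (i : Fin k), pderiv i.succ (t + C c * (X 0 * pderiv 0 Q)) =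
      pderiv i.succ t + C c * (X 0 * pderiv 0 (pderiv i.succ Q)) := by
    intro t Q i
    rw [map_add, hpC, Derivation.leibniz, hX0, smul_zero, add_zero, smul_eq_mul,
      Pool.Agent.Helper50.FC.pd_comm]
  -- closedness
  have hE : ∀ i j : Fin k, C c * (p i * q j - p j * q i) +
      (pderiv i.succ (r + C c * (X 0 * pderiv 0 Q2)) * q j -
        pderiv j.succ (r + C c * (X 0 * pderiv 0 Q2)) * q i) +
      (p i * pderiv j.succ (s + C c * (X 0 * pderiv 0 Q3)) -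
        p j * pderiv i.succ (s + C c * (X 0 * pderiv 0 Q3))) = 0 := by
    intro i j
    have h1 := h.closed 0 i.succ j.succ
    rw [h.dec.2.1 j.succ 0, h.e0, h.e0, h.e1] at h1
    simp only [map_neg, map_sub, Derivation.leibniz, smul_eq_mul, hX1, hpC, mul_assoc] at h1
    have hC0 : pderiv 0 (C c : Pn (k + 1)) = 0 := pderiv_C
    rw [hf, hf, hf, hf, hQ2d, hQ2d, hQ3d, hQ3d]
    linear_combination h1 + s * hp i j - r * hq i j
  have hQhom : ∀ (t Q : Pn (k + 1)), t.IsHomogeneous 2 → Q.IsHomogeneous 2 →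
      (t + C c * (X 0 * pderiv 0 Q)).IsHomogeneous 2 := by
    intro t Q ht hQ
    apply ht.add
    apply IsHomogeneous.C_mul
    exact (isHomogeneous_X ℂ (0 : Fin (k + 1))).mul hQ.pderiv
  have hr' := hQhom r Q2 h.hr hQ2
  have hs' := hQhom s Q3 h.hs hQ3
  obtain ⟨α, β, hαβ⟩ := span_of_wedge (f := fun i : Fin k =>
      pderiv i.succ (r + C c * (X 0 * pderiv 0 Q2))) h.hp h.hq (fun i => hr'.pderiv) hprim (by
    intro i j l
    linear_combination -(p i * hE j l + p j * hE l i + p l * hE i j))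
  obtain ⟨α', β', hαβ'⟩ := span_of_wedge (f := fun i : Fin k =>
      pderiv i.succ (s + C c * (X 0 * pderiv 0 Q3))) h.hp h.hq (fun i => hs'.pderiv) hprim (by
    intro i j l
    linear_combination -(q i * hE j l + q j * hE l i + q l * hE i j))
  have hsum : c + α + β' = 0 := by
    obtain ⟨a, b, hab⟩ : ∃ a b, p a * q b - p b * q a ≠ 0 := by
      by_contra hcon
      push Not at hcon
      have h1 := hprim 0 (fun e => by
        show (0 : Pn (k + 1)) ∣ p e.1 * q e.2 - p e.2 * q e.1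
        rw [hcon])
      exact not_isUnit_zero h1
    have h1 := hE a b
    rw [hαβ a, hαβ b, hαβ' a, hαβ' b] at h1
    have h2 : C (c + α + β') * (p a * q b - p b * q a) = 0 := by
      rw [C_add, C_add]
      linear_combination h1
    rcases mul_eq_zero.mp h2 with h3 | h3
    · exact C_eq_zero.mp h3
    · exact absurd h3 hab
  obtain ⟨κ, hκ⟩ := X0_sq (D := (r + C c * (X 0 * pderiv 0 Q2)) - C α * Q2 - C β * Q3)
    ((hr'.sub (hQ2.C_mul α)).sub (hQ3.C_mul β)) (by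
      intro i
      rw [map_sub, map_sub, hαβ i, pderiv_C_mul, pderiv_C_mul, hQ2d, hQ3d]
      ring)
  obtain ⟨κ', hκ'⟩ := X0_sq (D := (s + C c * (X 0 * pderiv 0 Q3)) - C α' * Q2 - C β' * Q3)
    ((hs'.sub (hQ2.C_mul α')).sub (hQ3.C_mul β')) (by
      intro i
      rw [map_sub, map_sub, hαβ' i, pderiv_C_mul, pderiv_C_mul, hQ2d, hQ3d]
      ring)
  have hw : ∀ a b t : ℂ, IsWeightedHomogeneous ![1, 2, 2]
      (C t * X 0 ^ 2 + C a * X 1 + C b * X 2 : MvPolynomial (Fin 3) ℂ) 2 := by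
    intro a b t
    have h0 := ((isWeightedHomogeneous_C (R := ℂ) (![1, 2, 2] : Fin 3 → ℕ) t).mul
      ((isWeightedHomogeneous_X ℂ (![1, 2, 2] : Fin 3 → ℕ) 0).pow 2))
    have h1 := ((isWeightedHomogeneous_C (R := ℂ) (![1, 2, 2] : Fin 3 → ℕ) a).mul
      (isWeightedHomogeneous_X ℂ (![1, 2, 2] : Fin 3 → ℕ) 1))
    have h2 := ((isWeightedHomogeneous_C (R := ℂ) (![1, 2, 2] : Fin 3 → ℕ) b).mul
      (isWeightedHomogeneous_X ℂ (![1, 2, 2] : Fin 3 → ℕ) 2))
    exact (h0.add h1).add h2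
  have hw0 : IsWeightedHomogeneous ![1, 2, 2] (C c * X 0 : MvPolynomial (Fin 3) ℂ) 1 :=
    (isWeightedHomogeneous_C (R := ℂ) (![1, 2, 2] : Fin 3 → ℕ) c).mul
      (isWeightedHomogeneous_X ℂ (![1, 2, 2] : Fin 3 → ℕ) 0)
  have hform : ∀ i j, θ i j = C c * X 0 * (pderiv i Q2 * pderiv j Q3 - pderiv j Q2 * pderiv i Q3) +
      (C κ * X 0 ^ 2 + C α * Q2 + C β * Q3) *
        (pderiv i Q3 * pderiv j (X 0) - pderiv j Q3 * pderiv i (X 0)) +
      (C κ' * X 0 ^ 2 + C α' * Q2 + C β' * Q3) *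
        (pderiv i (X 0) * pderiv j Q2 - pderiv j (X 0) * pderiv i Q2) := by
    have h0 : ∀ j : Fin k, θ 0 j.succ =
        C c * X 0 * (pderiv 0 Q2 * pderiv j.succ Q3 - pderiv j.succ Q2 * pderiv 0 Q3) +
        (C κ * X 0 ^ 2 + C α * Q2 + C β * Q3) *
          (pderiv 0 Q3 * pderiv j.succ (X 0) - pderiv j.succ Q3 * pderiv 0 (X 0)) +
        (C κ' * X 0 ^ 2 + C α' * Q2 + C β' * Q3) *
          (pderiv 0 (X 0) * pderiv j.succ Q2 - pderiv j.succ (X 0) * pderiv 0 Q2) := by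
      intro j
      rw [h.e0, hX0, hX1, hQ2d, hQ3d]
      linear_combination p j * hκ' - q j * hκ
    intro i j
    refine Fin.cases ?_ (fun i => ?_) i
    · refine Fin.cases ?_ (fun j => ?_) j
      · rw [h.dec.1]
        ring
      · exact h0 j
    · refine Fin.cases ?_ (fun j => ?_) j
      · rw [h.dec.2.1, h0 i]
        ring
      · rw [h.e1, hX0, hX0, hQ2d, hQ3d, hQ2d, hQ3d]
        ring
  refine ⟨![X 0, Q2, Q3], ![C c * X 0, C κ * X 0 ^ 2 + C α * X 1 + C β * X 2,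
    C κ' * X 0 ^ 2 + C α' * X 1 + C β' * X 2], ?_, ?_, ?_, ?_⟩
  · intro a
    fin_cases a
    · exact isHomogeneous_X ℂ (0 : Fin (k + 1))
    · exact hQ2
    · exact hQ3
  · intro a
    fin_cases a
    · exact hw0
    · exact hw α β κ
    · exact hw α' β' κ'
  · rw [Fin.sum_univ_three]
    show pderiv 0 (C c * X 0 : MvPolynomial (Fin 3) ℂ) +
      pderiv 1 (C κ * X 0 ^ 2 + C α * X 1 + C β * X 2 : MvPolynomial (Fin 3) ℂ) +
      pderiv 2 (C κ' * X 0 ^ 2 + C α' * X 1 + C β' * X 2 : MvPolynomial (Fin 3) ℂ) = 0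
    have e1 : pderiv 0 (C c * X 0 : MvPolynomial (Fin 3) ℂ) = C c := by
      rw [pderiv_C_mul, pderiv_X_self, mul_one]
    have e2 : pderiv 1 (C κ * X 0 ^ 2 + C α * X 1 + C β * X 2 : MvPolynomial (Fin 3) ℂ) = C α := by
      rw [map_add, map_add, pderiv_C_mul, pderiv_C_mul, pderiv_C_mul, pderiv_X_self,
        pderiv_X_of_ne (by decide), Derivation.leibniz_pow, pderiv_X_of_ne (by decide)]
      simp
    have e3 : pderiv 2 (C κ' * X 0 ^ 2 + C α' * X 1 + C β' * X 2 : MvPolynomial (Fin 3) ℂ) =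
        C β' := by
      rw [map_add, map_add, pderiv_C_mul, pderiv_C_mul, pderiv_C_mul, pderiv_X_self,
        pderiv_X_of_ne (by decide), Derivation.leibniz_pow, pderiv_X_of_ne (by decide)]
      simp
    rw [e1, e2, e3, ← C_add, ← C_add, hsum, C_0]
  · intro i j
    rw [hform i j, Fin.sum_univ_three]
    show _ = aeval ![X 0, Q2, Q3] (C c * X 0 : MvPolynomial (Fin 3) ℂ) *
        (pderiv i Q2 * pderiv j Q3 - pderiv j Q2 * pderiv i Q3) +
      aeval ![X 0, Q2, Q3] (C κ * X 0 ^ 2 + C α * X 1 + C β * X 2 : MvPolynomial (Fin 3) ℂ) *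
        (pderiv i Q3 * pderiv j (X 0) - pderiv j Q3 * pderiv i (X 0)) +
      aeval ![X 0, Q2, Q3] (C κ' * X 0 ^ 2 + C α' * X 1 + C β' * X 2 : MvPolynomial (Fin 3) ℂ) *
        (pderiv i (X 0) * pderiv j Q2 - pderiv j (X 0) * pderiv i Q2)
    have hC : ∀ a : ℂ, aeval (![X 0, Q2, Q3] : Fin 3 → Pn (k + 1)) (C a) = C a := fun a =>
      (aeval (![X 0, Q2, Q3] : Fin 3 → Pn (k + 1))).commutes a
    simp only [map_add, map_mul, map_pow, hC, aeval_X]
    rfl

end Pool.Agent.Helper60.FC
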