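import Pool.Agent.Helper60.FC.Base
import Pool.Agent.Helper50.FC.Div

/-!
P4-3: the 2x2 minors of two rows of linear forms are coprime when no combination of the rows spans a space of dimension ≤ 2.

`top_dvd`: if a homogeneous `q ≠ 0` of degree `d` is `π ρ` then, comparing the components of the highest degree, `q = π' ρ'` with
`π' = homogeneousComponent (totalDegree π) π` and similarly `ρ'` (write both factors as sums of components; `totalDegree (π ρ) = d`).
`dich`: `y ≠ 0` linear, all `p_i q_j - p_j q_i` divisible by `y`.  If `y ∣ p_i` for all `i`: (I) with `(1, 0)`.  Otherwise `p_a` is not divisible by `y`.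
If `q_a = t p_a + e y` for constants `t, e`: `p_a (q_j - t p_j) ≡ 0`, `y` is prime (`prime_of_hom_one`), so (I) with `(c, d) = (-t, 1)`.  Otherwise
`y, p_a, q_a` are linearly independent, `p_a q_j = p_j q_a + y (..)`: the ideal `(y, p_a)` is prime and does not contain `q_a`, so `p_j = α_j p_a + β_j y`,
and then `p_a (q_j - α_j q_a) ≡ 0 mod y`: (II) with `l2 = p_a`, `l3 = q_a`.  (The quotients are linear forms resp. constants: take homogeneous components;
or: change coordinates so that `y, p_a, q_a` are variables.)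
`prim_minor`: let `π` divide all minors, `π` not a unit.  The minors are not all zero (otherwise `dich` for two different `y` or directly as in `dich` without `y`:
`c p + d q = 0` or `p = α l2, q = α l3`, in all cases some combination spans a space of dimension ≤ 2, `rk2_of_two`).  By `top_dvd` there is a
homogeneous `g` of degree `e ≥ 1` dividing all minors; `e ≤ 2`.  `e = 1`: `dich` with `y = g`: (I) gives `Rk2 (c p + d q)` by `rk2_of_two` (`u1 = y`, `u2 = 0`),
(II) gives `Rk2 p` (`u1 = l2`, `u2 = y`).  `e = 2`: the minors are `C (c_ij) g`; from `p ∧ (p ∧ q) = 0`: `p_i c_jk + p_j c_ki + p_k c_ij = 0`, with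
`c_ab ≠ 0` every `p_k` is a combination of `p_a, p_b`: `rk2_of_two`. -/

set_option autoImplicit false

namespace Pool.Agent.Helper60.FC

open MvPolynomial
open scoped BigOperators
open Pool.Agent.Helper71.FC
open Pool.Agent.Helper50.FC (Prim)

variable {n k : ℕ}

theorem dvd_same {g m : Pn n} {e : ℕ} (hg : g.IsHomogeneous e) (g0 : g ≠ 0)
    (hm : m.IsHomogeneous e) (h : g ∣ m) : ∃ c : ℂ, m = C c * g := by
  rcases eq_or_ne m 0 with rfl | m0
  · exact ⟨0, by simp⟩
  obtain ⟨r, hr⟩ := h
  have r0 : r ≠ 0 := by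
    rintro rfl
    exact m0 (by rw [hr, mul_zero])
  have h1 : m.totalDegree = g.totalDegree + r.totalDegree := by
    rw [hr]
    exact totalDegree_mul_of_isDomain g0 r0
  rw [hm.totalDegree m0, hg.totalDegree g0] at h1
  have h2 : r.totalDegree = 0 := by omega
  obtain ⟨c, hc⟩ : ∃ c, r = C c := ⟨_, (totalDegree_eq_zero_iff_eq_C (p := r)).mp h2⟩
  exact ⟨c, by rw [hr, hc, mul_comm]⟩

theorem hc_top (π ρ : Pn n) :
    homogeneousComponent (π.totalDegree + ρ.totalDegree) (π * ρ) =
      homogeneousComponent π.totalDegree π * homogeneousComponent ρ.totalDegree ρ := by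
  have h1 : π * ρ = ∑ i ∈ Finset.range (π.totalDegree + 1), ∑ j ∈ Finset.range (ρ.totalDegree + 1),
      homogeneousComponent i π * homogeneousComponent j ρ := by
    rw [← Finset.sum_mul_sum, sum_homogeneousComponent, sum_homogeneousComponent]
  rw [h1, map_sum]
  have h2 : ∀ i ∈ Finset.range (π.totalDegree + 1),
      homogeneousComponent (π.totalDegree + ρ.totalDegree)
        (∑ j ∈ Finset.range (ρ.totalDegree + 1),
          homogeneousComponent i π * homogeneousComponent j ρ) =
        if i = π.totalDegree then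
          homogeneousComponent π.totalDegree π * homogeneousComponent ρ.totalDegree ρ else 0 := by
    intro i hi
    rw [Finset.mem_range] at hi
    rw [map_sum]
    have h3 : ∀ j ∈ Finset.range (ρ.totalDegree + 1),
        homogeneousComponent (π.totalDegree + ρ.totalDegree)
          (homogeneousComponent i π * homogeneousComponent j ρ) =
          if j = ρ.totalDegree then (if i = π.totalDegree then
          homogeneousComponent π.totalDegree π * homogeneousComponent ρ.totalDegree ρ else 0)
          else 0 := by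
      intro j hj
      rw [Finset.mem_range] at hj
      rw [homogeneousComponent_of_mem (n := i + j)
        ((homogeneousComponent_isHomogeneous i π).mul (homogeneousComponent_isHomogeneous j ρ))]
      by_cases hj' : j = ρ.totalDegree
      · by_cases hi' : i = π.totalDegree
        · subst hj'
          subst hi'
          simp
        · rw [if_neg (by omega), if_pos hj', if_neg hi']
      · rw [if_neg (by omega), if_neg hj']
    rw [Finset.sum_congr rfl h3, Finset.sum_ite_eq', if_pos (Finset.mem_range.2 (by omega))]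
  rw [Finset.sum_congr rfl h2, Finset.sum_ite_eq', if_pos (Finset.mem_range.2 (by omega))]

theorem top_dvd {q π ρ : Pn n} {d : ℕ} (hq : q.IsHomogeneous d) (h0 : q ≠ 0) (h : q = π * ρ) :
    homogeneousComponent π.totalDegree π ∣ q ∧ π.totalDegree ≤ d := by
  have π0 : π ≠ 0 := by
    rintro rfl
    exact h0 (by rw [h, zero_mul])
  have ρ0 : ρ ≠ 0 := by
    rintro rfl
    exact h0 (by rw [h, mul_zero])
  have h1 : q.totalDegree = π.totalDegree + ρ.totalDegree := by
    rw [h]
    exact totalDegree_mul_of_isDomain π0 ρ0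
  rw [hq.totalDegree h0] at h1
  refine ⟨⟨homogeneousComponent ρ.totalDegree ρ, ?_⟩, by omega⟩
  rw [← hc_top, ← h, ← h1]
  exact (homogeneousComponent_eq_self hq).symm

/-- a linear functional which separates a vector from a subspace, as an evaluation -/
theorem sep (S : Submodule ℂ (Fin n → ℂ)) {x : Fin n → ℂ} (hx : x ∉ S) :
    ∃ u : Fin n → ℂ, (∀ s ∈ S, eval u (lf s) = 0) ∧ eval u (lf x) ≠ 0 := by
  obtain ⟨f, hf, hfS⟩ := Submodule.exists_le_ker_of_notMem hx
  have key : ∀ a, eval (fun i => f (fun j => if i = j then 1 else 0)) (lf a) = f a := by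
    intro a
    unfold lf
    rw [map_sum, LinearMap.pi_apply_eq_sum_univ f a]
    refine Finset.sum_congr rfl fun i _ => ?_
    rw [map_mul, eval_C, eval_X, smul_eq_mul]
  refine ⟨fun i => f (fun j => if i = j then 1 else 0), fun s hs => ?_, ?_⟩
  · rw [key]
    exact hfS hs
  · rw [key]
    exact hf

theorem lf_add' (a b : Fin n → ℂ) (c d : ℂ) : lf (c • a + d • b) = C c * lf a + C d * lf b := by
  unfold lf
  rw [Finset.mul_sum, Finset.mul_sum, ← Finset.sum_add_distrib]
  refine Finset.sum_congr rfl fun i _ => ?_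
  rw [Pi.add_apply, Pi.smul_apply, Pi.smul_apply, smul_eq_mul, smul_eq_mul, C_add, C_mul, C_mul]
  ring

/-- eval of a linear form is additive in the point -/
theorem eval_lf_add (a u w : Fin n → ℂ) (s : ℂ) :
    eval (u + s • w) (lf a) = eval u (lf a) + s * eval w (lf a) := by
  unfold lf
  rw [map_sum, map_sum, map_sum, Finset.mul_sum, ← Finset.sum_add_distrib]
  refine Finset.sum_congr rfl fun i _ => ?_
  simp only [map_mul, eval_C, eval_X, Pi.add_apply, Pi.smul_apply, smul_eq_mul]
  ring

/-- if `y ∣ a u - b c` with linear forms, and `b`, `c` are not combinations of `y` and `a`: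
impossible -/
theorem key2 {y a b c u : Pn n} (hy : y.IsHomogeneous 1) (ha : a.IsHomogeneous 1)
    (hb : b.IsHomogeneous 1) (hc : c.IsHomogeneous 1) (h : y ∣ a * u - b * c)
    (h1 : ¬ ∃ t e : ℂ, c = C t * a + C e * y) : ∃ t e : ℂ, b = C t * a + C e * y := by
  by_contra h2
  obtain ⟨y', rfl⟩ := lf_of_hom hy
  obtain ⟨a', rfl⟩ := lf_of_hom ha
  obtain ⟨b', rfl⟩ := lf_of_hom hb
  obtain ⟨c', rfl⟩ := lf_of_hom hc
  have hS : ∀ x : Fin n → ℂ, (¬ ∃ t e : ℂ, lf x = C t * lf a' + C e * lf y') →
      x ∉ Submodule.span ℂ {a', y'} := by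
    intro x hx hx'
    rw [Submodule.mem_span_pair] at hx'
    obtain ⟨t, e, hte⟩ := hx'
    exact hx ⟨t, e, by rw [← hte, lf_add']⟩
  obtain ⟨v, hv, hv'⟩ := sep _ (hS b' h2)
  obtain ⟨w, hw, hw'⟩ := sep _ (hS c' h1)
  have va : eval v (lf a') = 0 := hv _ (Submodule.subset_span (by simp))
  have vy : eval v (lf y') = 0 := hv _ (Submodule.subset_span (by simp))
  have wa : eval w (lf a') = 0 := hw _ (Submodule.subset_span (by simp))
  have wy : eval w (lf y') = 0 := hw _ (Submodule.subset_span (by simp))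
  obtain ⟨g, hg⟩ := h
  have hz : ∀ s : ℂ, (eval v (lf b') + s * eval w (lf b')) *
      (eval v (lf c') + s * eval w (lf c')) = 0 := by
    intro s
    have h3 := congrArg (eval (v + s • w)) hg
    rw [map_sub, map_mul, map_mul, map_mul, eval_lf_add a', eval_lf_add y', va, vy, wa, wy,
      eval_lf_add b', eval_lf_add c'] at h3
    linear_combination -h3
  have z0 := hz 0
  have z1 := hz 1
  have z2 := hz (-1)
  have e0 : eval v (lf c') = 0 := by
    rw [zero_mul, zero_mul, add_zero, add_zero] at z0
    exact (mul_eq_zero.1 z0).resolve_left hv'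
  rw [e0] at z1 z2
  have f1 : eval v (lf b') + eval w (lf b') = 0 := by
    have : (eval v (lf b') + eval w (lf b')) * eval w (lf c') = 0 := by linear_combination z1
    exact (mul_eq_zero.1 this).resolve_right hw'
  have f2 : eval v (lf b') - eval w (lf b') = 0 := by
    have : (eval v (lf b') - eval w (lf b')) * eval w (lf c') = 0 := by linear_combination -z2
    exact (mul_eq_zero.1 this).resolve_right hw'
  apply hv'
  linear_combination (f1 + f2) / 2

theorem dich {ι : Type} {y : Pn n} (hy : y.IsHomogeneous 1) (y0 : y ≠ 0) {p q : ι → Pn n}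
    (hp : ∀ i, (p i).IsHomogeneous 1) (hq : ∀ i, (q i).IsHomogeneous 1)
    (h : ∀ i j, y ∣ p i * q j - p j * q i) :
    (∃ c d : ℂ, (c ≠ 0 ∨ d ≠ 0) ∧ ∃ b : ι → ℂ, ∀ i, C c * p i + C d * q i = C (b i) * y) ∨
    ∃ (l2 l3 : Pn n) (α β γ : ι → ℂ), l2.IsHomogeneous 1 ∧ l3.IsHomogeneous 1 ∧
      ∀ i, p i = C (α i) * l2 + C (β i) * y ∧ q i = C (α i) * l3 + C (γ i) * y := by
  have hpr := prime_of_hom_one hy y0
  have hC : ∀ (c : ℂ) {a : Pn n}, a.IsHomogeneous 1 → (C c * a).IsHomogeneous 1 := by
    intro c a ha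
    have := (isHomogeneous_C (Fin n) c).mul ha
    rwa [zero_add] at this
  by_cases hA : ∀ i, y ∣ p i
  · left
    have hA' : ∀ i, ∃ b : ℂ, p i = C b * y := fun i => dvd_same hy y0 (hp i) (hA i)
    choose b hb using hA'
    refine ⟨1, 0, Or.inl one_ne_zero, b, fun i => ?_⟩
    rw [C_1, C_0, one_mul, zero_mul, add_zero]
    exact hb i
  push Not at hA
  obtain ⟨a, ha⟩ := hA
  by_cases hB : ∃ t e : ℂ, q a = C t * p a + C e * y
  · left
    obtain ⟨t, e, hte⟩ := hB
    have h1 : ∀ j, ∃ b : ℂ, C (-t) * p j + C 1 * q j = C b * y := by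
      intro j
      apply dvd_same hy y0 ((hC _ (hp j)).add (hC _ (hq j)))
      have h2 : y ∣ p a * (C (-t) * p j + C 1 * q j) := by
        obtain ⟨g, hg⟩ := h a j
        refine ⟨g + C e * p j, ?_⟩
        rw [C_neg, C_1]
        rw [hte] at hg
        linear_combination hg
      exact (hpr.dvd_or_dvd h2).resolve_left ha
    choose b hb using h1
    exact ⟨-t, 1, Or.inr one_ne_zero, b, hb⟩
  · right
    have h1 : ∀ j, ∃ t e : ℂ, p j = C t * p a + C e * y := fun j =>
      key2 hy (hp a) (hp j) (hq a) (h a j) hB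
    choose α β hαβ using h1
    have h2 : ∀ j, ∃ c : ℂ, q j = C (α j) * q a + C c * y := by
      intro j
      have h3 : y ∣ p a * (q j - C (α j) * q a) := by
        obtain ⟨g, hg⟩ := h a j
        refine ⟨g + C (β j) * q a, ?_⟩
        have h4 := hαβ j
        linear_combination hg + q a * h4
      have h4 := (hpr.dvd_or_dvd h3).resolve_left ha
      obtain ⟨c, hc⟩ := dvd_same hy y0 ((hq j).sub (hC _ (hq a))) h4
      exact ⟨c, by linear_combination hc⟩
    choose γ hγ using h2
    exact ⟨p a, q a, α, β, γ, hp a, hq a, fun i => ⟨hαβ i, hγ i⟩⟩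

theorem prim_minor (hk : 3 ≤ k) {p q : Fin k → Pn n} (hp : ∀ i, (p i).IsHomogeneous 1)
    (hq : ∀ i, (q i).IsHomogeneous 1)
    (nt : ∀ c d : ℂ, (c ≠ 0 ∨ d ≠ 0) → ¬ Rk2 (fun i => C c * p i + C d * q i)) :
    Prim (fun e : Fin k × Fin k => p e.1 * q e.2 - p e.2 * q e.1) := by
  intro π hπ
  have hπ' : ∀ i j, π ∣ p i * q j - p j * q i := fun i j => hπ (i, j)
  have hp1 : (fun i => C 1 * p i + C 0 * q i) = p := by
    funext i
    rw [C_1, C_0, one_mul, zero_mul, add_zero]
  have ntp : ¬ Rk2 p := by
    have := nt 1 0 (Or.inl one_ne_zero)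
    rwa [hp1] at this
  -- no linear form divides all minors
  have hlin : ∀ y : Pn n, y.IsHomogeneous 1 → y ≠ 0 → ¬ ∀ i j, y ∣ p i * q j - p j * q i := by
    intro y hy y0 h
    rcases dich hy y0 hp hq h with ⟨c, d, hcd, b, hb⟩ | ⟨l2, l3, α, β, γ, _, _, h2⟩
    · refine nt c d hcd (rk2_of_two (u1 := y) (u2 := 0) (a := b) (b := fun _ => 0) fun i => ?_)
      rw [hb i, mul_zero, add_zero]
    · exact ntp (rk2_of_two (u1 := l2) (u2 := y) (a := α) (b := β) fun i => (h2 i).1)
  have hmin : ∃ a b, p a * q b - p b * q a ≠ 0 := by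
    by_contra hcon
    push Not at hcon
    by_cases h0 : ∀ i, p i = 0
    · refine ntp (rk2_of_two (u1 := 0) (u2 := 0) (a := fun _ => 0) (b := fun _ => 0) fun i => ?_)
      rw [h0 i, mul_zero, add_zero]
    · push Not at h0
      obtain ⟨a, ha⟩ := h0
      refine hlin (p a) (hp a) ha fun i j => ?_
      rw [hcon i j]
      exact dvd_zero _
  obtain ⟨a, b, hab⟩ := hmin
  have hm : ∀ i j, (p i * q j - p j * q i).IsHomogeneous 2 := fun i j =>
    ((hp i).mul (hq j)).sub ((hp j).mul (hq i))
  set g := homogeneousComponent π.totalDegree π with hg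
  have hgh : g.IsHomogeneous π.totalDegree := homogeneousComponent_isHomogeneous _ _
  have hgd : ∀ i j, g ∣ p i * q j - p j * q i := by
    intro i j
    by_cases h0 : p i * q j - p j * q i = 0
    · rw [h0]
      exact dvd_zero _
    · obtain ⟨ρ, hρ⟩ := hπ' i j
      exact (top_dvd (hm i j) h0 hρ).1
  have hle : π.totalDegree ≤ 2 := by
    obtain ⟨ρ, hρ⟩ := hπ' a b
    exact (top_dvd (hm a b) hab hρ).2
  have g0 : g ≠ 0 := by
    intro h
    have h1 := hgd a b
    rw [h, zero_dvd_iff] at h1
    exact hab h1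
  have π0 : π ≠ 0 := by
    rintro rfl
    have h1 := hπ' a b
    rw [zero_dvd_iff] at h1
    exact hab h1
  rcases Nat.lt_or_ge π.totalDegree 1 with h1 | h1
  · have h2 : π.totalDegree = 0 := by omega
    obtain ⟨c, hc⟩ : ∃ c, π = C c := ⟨_, (totalDegree_eq_zero_iff_eq_C (p := π)).mp h2⟩
    rw [hc]
    refine IsUnit.map C (isUnit_iff_ne_zero.2 ?_)
    rintro rfl
    exact π0 (by rw [hc, C_0])
  exfalso
  rcases (show π.totalDegree = 1 ∨ π.totalDegree = 2 by omega) with h2 | h2
  · rw [h2] at hgh
    exact hlin g hgh g0 hgd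
  · rw [h2] at hgh
    have h3 : ∀ i j, ∃ c : ℂ, p i * q j - p j * q i = C c * g := fun i j =>
      dvd_same hgh g0 (hm i j) (hgd i j)
    choose c hc using h3
    have hcab : c a b ≠ 0 := by
      intro h
      apply hab
      rw [hc, h, C_0, zero_mul]
    refine ntp (rk2_of_two (u1 := p a) (u2 := p b) (a := fun i => -(c b i) / c a b)
      (b := fun i => -(c i a) / c a b) fun i => ?_)
    have h4 : C (c b i) * p a + C (c i a) * p b + C (c a b) * p i = 0 := by
      apply mul_left_cancel₀ g0
      rw [mul_zero]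
      have e1 := hc a b
      have e2 := hc b i
      have e3 := hc i a
      linear_combination (-p a) * e2 - p b * e3 - p i * e1
    have h5 : p i = C ((c a b)⁻¹) * (C (c a b) * p i) := by
      rw [← mul_assoc, ← C_mul, inv_mul_cancel₀ hcab, C_1, one_mul]
    rw [h5, show C (c a b) * p i = -(C (c b i) * p a + C (c i a) * p b) by
      linear_combination h4]
    rw [div_eq_mul_inv, div_eq_mul_inv, C_mul, C_mul, C_neg, C_neg]
    ring

end Pool.Agent.Helper60.FC
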