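import Pool.Agent.Helper60.FC.CaseB5
import Pool.Agent.Helper60.FC.Top

/-!
P4-7: case `m = X_1` independent of `l = X_0`: impossible.

Index of `m`: `X 1 = X (i1.succ)` with `i1 = 0 : Fin (k+1)`.  For `i, j ≠ i1` closedness `(i1+1, i+1, j+1)` of `θ = X_1 Δ_ij`:
`Δ_ij + X_1 (..) = 0`, so `X_1 ∣ Δ_ij`.  `dich` for the index type `{i // i ≠ i1}`:
(I) `c p_i + d q_i = b_i X_1` for `i ≠ i1`: `rk2_of_two` with `u1 = X_1`, `u2 = c p_i1 + d q_i1`: contradiction to `nt`.
(II) `p_i = α_i l2 + β_i X_1`, `q_i = α_i l3 + γ_i X_1`, `i ≠ i1`.  A vector `v` with `v_i1 = 0` and `α v = β v = γ v = 0` is zero by `Ad.nc`.  So `k = 3` by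
`exists_ker` (`m = 4`), and `α, β, γ` are independent functionals on the `v` with `v_i1 = 0`: the linear forms `X_0, X_1, ∑ α_i X_(i+1), ∑ β_i X_(i+1), ∑ γ_i X_(i+1)`
(`i ≠ i1`) are independent, `exists_coord` (`r = n = 5`) gives `g` with `lsub g` of them `= X 0, .., X 4`.  `Ad.s4`, `S4.pb2`, `S4.ad`: the new `p'` is
`(pb g (0, p)) i.succ` where `(0, p) = p_i1 dX_1 + l2 d(∑ α_i X_(i+1)) + X_1 d(∑ β_i X_(i+1))`, so (`pb_df`, `pb_add`, `pb_smul`)
`p' = (lsub g p_i1, lsub g l2, X 1, 0)`, `q' = (lsub g q_i1, lsub g l3, 0, X 1)`: `caseB5`. -/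

set_option autoImplicit false

namespace Pool.Agent.Helper60.FC

open MvPolynomial
open scoped BigOperators
open Pool.Agent.Helper71.FC
open Pool.Agent.Helper71.FL (w12 pf ct Dec Closed dd)
open Pool.Agent.Helper93 (lsub lmap OF pb)

variable {k : ℕ}

private theorem caseB_dvd {θ : F2 (k + 2)} {p q : Fin (k + 1) → Pn (k + 2)} {r s : Pn (k + 2)}
    (h : Ad θ (X 1) p q r s) (i j : Fin k) :
    (X 1 : Pn (k + 2)) ∣ p i.succ * q j.succ - p j.succ * q i.succ := by
  have h1 : (1 : Fin (k + 2)) = (0 : Fin (k + 1)).succ := rfl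
  have hne : ∀ t : Fin k, t.succ.succ ≠ (1 : Fin (k + 2)) := by
    intro t ht
    rw [h1] at ht
    exact Fin.succ_ne_zero t (Fin.succ_injective _ ht)
  have hX : ∀ t : Fin k, pderiv t.succ.succ (X 1 : Pn (k + 2)) = 0 := fun t =>
    pderiv_X_of_ne (Ne.symm (hne t))
  have hc := h.closed (0 : Fin (k + 1)).succ i.succ.succ j.succ.succ
  rw [h.e1, h.e1, h.e1, Derivation.leibniz, Derivation.leibniz, Derivation.leibniz, hX, hX,
    ← h1, pderiv_X_self, smul_zero, smul_zero, add_zero, add_zero, smul_eq_mul, smul_eq_mul,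
    smul_eq_mul, smul_eq_mul] at hc
  refine ⟨-(pderiv 1 (p i.succ * q j.succ - p j.succ * q i.succ) +
    pderiv i.succ.succ (p j.succ * q 0 - p 0 * q j.succ) +
    pderiv j.succ.succ (p 0 * q i.succ - p i.succ * q 0)), ?_⟩
  linear_combination hc

private theorem caseB_lf {n : ℕ} (a : Fin n → ℂ) (j : Fin n) : df (lf a) j = C (a j) := by
  unfold df lf
  rw [map_sum, Finset.sum_eq_single j]
  · rw [Derivation.leibniz, pderiv_X_self, pderiv_C, smul_zero, add_zero, smul_eq_mul, mul_one]
  · intro i _ hi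
    rw [Derivation.leibniz, pderiv_X_of_ne hi, pderiv_C, smul_zero, smul_zero, add_zero]
  · intro hj
    exact absurd (Finset.mem_univ j) hj

private theorem caseB_df {n : ℕ} (i j : Fin n) :
    df (X i : Pn n) j = if i = j then 1 else 0 := by
  unfold df
  by_cases hij : i = j
  · rw [if_pos hij, hij, pderiv_X_self]
  · rw [if_neg hij, pderiv_X_of_ne hij]

theorem caseB (hk : 3 ≤ k) {θ : F2 (k + 2)} {p q : Fin (k + 1) → Pn (k + 2)} {r s : Pn (k + 2)}
    (h : Ad θ (X 1) p q r s) : False := by
  rcases dich (y := (X 1 : Pn (k + 2))) (isHomogeneous_X ℂ 1) (X_ne_zero 1)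
      (p := fun i : Fin k => p i.succ) (q := fun i : Fin k => q i.succ) (fun i => h.hp _)
      (fun i => h.hq _) (fun i j => caseB_dvd h i j) with
    ⟨c, d, hcd, b, hb⟩ | ⟨l2, l3, α, β, γ, hl2, hl3, hpq⟩
  · refine h.nt c d hcd (rk2_of_two (u1 := X 1) (u2 := C c * p 0 + C d * q 0)
      (a := Fin.cons 0 b) (b := Fin.cons 1 (fun _ => 0)) fun i => ?_)
    refine Fin.cases ?_ (fun j => ?_) i
    · simp only [Fin.cons_zero, C_0, C_1, zero_mul, one_mul, zero_add]
    · simp only [Fin.cons_succ, C_0, zero_mul, add_zero]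
      exact hb j
  · have hker : ∀ w : Fin k → ℂ, ∑ i, w i * α i = 0 → ∑ i, w i * β i = 0 →
        ∑ i, w i * γ i = 0 → w = 0 := by
      intro w h1 h2 h3
      have e1 : ∀ a : Fin k → ℂ, ∀ u : Pn (k + 2), ∑ i, w i * a i = 0 →
          ∑ i, C (w i) * (C (a i) * u) = 0 := by
        intro a u ha
        have e2 : ∀ i, (C (w i) * (C (a i) * u) : Pn (k + 2)) = C (w i * a i) * u := by
          intro i
          rw [C_mul]
          ring
        simp only [e2]
        rw [← Finset.sum_mul, ← map_sum, ha, C_0, zero_mul]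
      have e3 := h.nc (v := Fin.cons 0 w) (by
        rw [Fin.sum_univ_succ]
        simp only [Fin.cons_zero, Fin.cons_succ, C_0, zero_mul, zero_add]
        simp only [(hpq _).1, mul_add, Finset.sum_add_distrib]
        rw [e1 α l2 h1, e1 β (X 1) h2, add_zero]) (by
        rw [Fin.sum_univ_succ]
        simp only [Fin.cons_zero, Fin.cons_succ, C_0, zero_mul, zero_add]
        simp only [(hpq _).2, mul_add, Finset.sum_add_distrib]
        rw [e1 α l3 h1, e1 γ (X 1) h3, add_zero])
      funext i
      have e4 := congrFun e3 i.succ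
      rwa [Fin.cons_succ] at e4
    have hk3 : k = 3 := by
      by_contra hne
      obtain ⟨v, hv0, hv⟩ := exists_ker (k := k) (m := 3) (by omega) ![α, β, γ]
      exact hv0 (hker v (hv 0) (hv 1) (hv 2))
    subst hk3
    have hrow : ∀ c2 c3 c4 : ℂ, (∀ i : Fin 3, c2 * α i + c3 * β i + c4 * γ i = 0) →
        c2 = 0 ∧ c3 = 0 ∧ c4 = 0 := by
      intro c2 c3 c4 hc
      by_contra hne
      have h1 : ∃ v : Fin 3 → ℂ, v ≠ 0 ∧ Matrix.vecMul v (Matrix.of ![α, β, γ]) = 0 := by
        refine ⟨![c2, c3, c4], fun h0 => hne ⟨congrFun h0 0, congrFun h0 1, congrFun h0 2⟩, ?_⟩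
        funext i
        rw [Matrix.vecMul, dotProduct, Fin.sum_univ_three]
        exact hc i
      rw [Matrix.exists_vecMul_eq_zero_iff, ← Matrix.exists_mulVec_eq_zero_iff] at h1
      obtain ⟨v, hv0, hv⟩ := h1
      refine hv0 (hker v ?_ ?_ ?_)
      · have := congrFun hv 0
        rw [Matrix.mulVec, dotProduct] at this
        refine Eq.trans ?_ this
        exact Finset.sum_congr rfl fun i _ => mul_comm _ _
      · have := congrFun hv 1
        rw [Matrix.mulVec, dotProduct] at this
        refine Eq.trans ?_ this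
        exact Finset.sum_congr rfl fun i _ => mul_comm _ _
      · have := congrFun hv 2
        rw [Matrix.mulVec, dotProduct] at this
        refine Eq.trans ?_ this
        exact Finset.sum_congr rfl fun i _ => mul_comm _ _
    let a : Fin 5 → Fin 5 → ℂ := ![![1, 0, 0, 0, 0], ![0, 1, 0, 0, 0],
      ![0, 0, α 0, α 1, α 2], ![0, 0, β 0, β 1, β 2], ![0, 0, γ 0, γ 1, γ 2]]
    have ha : LinearIndependent ℂ a := by
      rw [Fintype.linearIndependent_iff]
      intro c hc
      have e : ∀ j, c 0 * a 0 j + c 1 * a 1 j + c 2 * a 2 j + c 3 * a 3 j + c 4 * a 4 j = 0 := by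
        intro j
        have := congrFun hc j
        rw [Fin.sum_univ_five] at this
        exact this
      have e0 := e 0
      have e1 := e 1
      have e2 := e 2
      have e3 := e 3
      have e4 := e 4
      simp [a] at e0 e1 e2 e3 e4
      obtain ⟨f2, f3, f4⟩ := hrow (c 2) (c 3) (c 4) (by
        intro i
        fin_cases i
        · exact e2
        · exact e3
        · exact e4)
      intro i
      fin_cases i
      · exact e0
      · exact e1
      · exact f2
      · exact f3
      · exact f4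
    obtain ⟨g, g', hg, hX⟩ := exists_coord (n := 5) (r := 5) le_rfl a ha
    have hlf0 : lf (a 0) = (X 0 : Pn 5) := by
      unfold lf
      rw [Fin.sum_univ_five]
      simp [a]
    have hlf1 : lf (a 1) = (X 1 : Pn 5) := by
      unfold lf
      rw [Fin.sum_univ_five]
      simp [a]
    have g0 : lsub g (X 0) = X 0 := by
      have h1 := hX 0
      rw [hlf0] at h1
      exact h1
    have g1 : lsub g (X 1) = X 1 := by
      have h1 := hX 1
      rw [hlf1] at h1
      exact h1
    have g2 : lsub g (lf (a 2)) = X 2 := hX 2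
    have g3 : lsub g (lf (a 3)) = X 3 := hX 3
    have g4 : lsub g (lf (a 4)) = X 4 := hX 4
    have hS := (h.s4 (isHomogeneous_X ℂ 1) (X_ne_zero 1)).pb2 hg
    rw [g0, g1] at hS
    have hA := hS.ad
    have hp : (Fin.cons 0 p : F1 5) = fun j => p 0 * df (X 1) j + (l2 * df (lf (a 2)) j +
        X 1 * df (lf (a 3)) j) := by
      funext j
      rw [caseB_df, caseB_lf, caseB_lf]
      fin_cases j
      · simp [a]
      · simp [a]
      · have := (hpq 0).1
        simp [a]
        rw [show (2 : Fin 5) = (0 : Fin 3).succ.succ from rfl, Fin.cons_succ, this]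
        ring
      · have := (hpq 1).1
        simp [a]
        rw [show (3 : Fin 5) = (1 : Fin 3).succ.succ from rfl, Fin.cons_succ, this]
        ring
      · have := (hpq 2).1
        simp [a]
        rw [show (4 : Fin 5) = (2 : Fin 3).succ.succ from rfl, Fin.cons_succ, this]
        ring
    have hq : (Fin.cons 0 q : F1 5) = fun j => q 0 * df (X 1) j + (l3 * df (lf (a 2)) j +
        X 1 * df (lf (a 4)) j) := by
      funext j
      rw [caseB_df, caseB_lf, caseB_lf]
      fin_cases j
      · simp [a]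
      · simp [a]
      · have := (hpq 0).2
        simp [a]
        rw [show (2 : Fin 5) = (0 : Fin 3).succ.succ from rfl, Fin.cons_succ, this]
        ring
      · have := (hpq 1).2
        simp [a]
        rw [show (3 : Fin 5) = (1 : Fin 3).succ.succ from rfl, Fin.cons_succ, this]
        ring
      · have := (hpq 2).2
        simp [a]
        rw [show (4 : Fin 5) = (2 : Fin 3).succ.succ from rfl, Fin.cons_succ, this]
        ring
    have hp' : pb g (Fin.cons 0 p : F1 5) = fun j => lsub g (p 0) * df (X 1) j +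
        (lsub g l2 * df (X 2) j + X 1 * df (X 3) j) := by
      rw [hp, pb_add, pb_smul, pb_add, pb_smul, pb_smul, pb_df, pb_df, pb_df, g1, g2, g3]
    have hq' : pb g (Fin.cons 0 q : F1 5) = fun j => lsub g (q 0) * df (X 1) j +
        (lsub g l3 * df (X 2) j + X 1 * df (X 4) j) := by
      rw [hq, pb_add, pb_smul, pb_add, pb_smul, pb_smul, pb_df, pb_df, pb_df, g1, g2, g4]
    have hp2 : (fun i : Fin 4 => pb g (Fin.cons 0 p : F1 5) i.succ) =
        ![lsub g (p 0), lsub g l2, X 1, 0] := by
      funext i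
      rw [hp']
      simp only [caseB_df]
      fin_cases i <;> simp
    have hq2 : (fun i : Fin 4 => pb g (Fin.cons 0 q : F1 5) i.succ) =
        ![lsub g (q 0), lsub g l3, 0, X 1] := by
      funext i
      rw [hq']
      simp only [caseB_df]
      fin_cases i <;> simp
    rw [hp2, hq2] at hA
    exact caseB5 hA

end Pool.Agent.Helper60.FC
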