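import Pool.Agent.Helper71.FC.GL2
import Pool.Agent.Helper71.FC.Sat

/-! PROP 4: two facts on homogeneous polynomials. -/

set_option autoImplicit false

namespace Pool.Agent.Helper60.FC

open MvPolynomial
open scoped BigOperators
open Pool.Agent.Helper71.FC

/-- a factor of a homogeneous polynomial, the other factor being homogeneous -/
theorem hom_fac {n : ℕ} {f g : Pn n} {d e : ℕ} (h : (f * g).IsHomogeneous (d + e))
    (hf : f.IsHomogeneous d) (hf0 : f ≠ 0) : g.IsHomogeneous e := by
  have h1 : ∀ i, i ≠ e → homogeneousComponent i g = 0 := by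
    intro i hi
    have h2 := sat_hc_mul i d g f hf
    have h3 : homogeneousComponent (i + d) (g * f) = 0 := by
      have h4 : (g * f) ∈ homogeneousSubmodule (Fin n) ℂ (d + e) := by rw [mul_comm]; exact h
      rw [homogeneousComponent_of_mem h4, if_neg (by omega)]
    rw [h3] at h2
    exact (mul_eq_zero.mp h2.symm).resolve_right hf0
  have h2 : g = homogeneousComponent e g := by
    by_cases h5 : e ∈ Finset.range (g.totalDegree + 1)
    · conv_lhs => rw [← sum_homogeneousComponent g]
      rw [Finset.sum_eq_single e]
      · intro b _ hb; exact h1 b hb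
      · intro hb; exact absurd h5 hb
    · have h6 : g = 0 := by
        conv_lhs => rw [← sum_homogeneousComponent g]
        apply Finset.sum_eq_zero
        intro b hb
        apply h1
        rintro rfl
        exact h5 hb
      rw [h6, map_zero]
  rw [h2]
  exact homogeneousComponent_isHomogeneous e g

/-- coefficients of a linear form -/
theorem lin_data {n : ℕ} {f : Pn n} (h : f.IsHomogeneous 1) :
    ∃ a : Fin n → ℂ, (∀ i, pderiv i f = C (a i)) ∧ f = ∑ i, C (a i) * X i := by
  obtain ⟨a, ha⟩ := lf_of_hom h
  refine ⟨a, fun i => ?_, ha⟩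
  rw [ha]
  unfold lf
  rw [map_sum, Finset.sum_eq_single i]
  · rw [pderiv_C_mul, pderiv_X_self, mul_one]
  · intro b _ hb
    rw [pderiv_C_mul, pderiv_X_of_ne hb, mul_zero]
  · intro hb; exact absurd (Finset.mem_univ i) hb

end Pool.Agent.Helper60.FC
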