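import Pool.Agent.Helper60.FC.Base
import Pool.Agent.Helper60.FC.Hom
import Pool.Agent.Helper50.FC.Poin

/-!
P4-6: the normal form with `y = X_1`, `φ = A dX_1 + B dX_2 + X_1 dX_3`, `ψ = A' dX_1 + B' dX_2 + X_1 dX_4` on `ℂ^5` does not exist.

Write `∂_i = pderiv i`, `Δ_ij = p_i q_j - p_j q_i`, so `Δ_01 = A B' - A' B`, `Δ_02 = - X_1 A'`, `Δ_03 = X_1 A`, `Δ_12 = - X_1 B'`, `Δ_13 = X_1 B`, `Δ_23 = X_1²`.
Constants `a = ∂_3 A, b = ∂_4 A, c = ∂_3 A', d = ∂_4 A'`, `e = ∂_3 B, f = ∂_4 B, g = ∂_3 B', h = ∂_4 B'`.  Closedness (indices 1..4), divided by `X_1` resp. `X_1²`: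
(1,3,4): `3 - a - d = 0`;  (2,3,4): `e + h = 0`;
(1,2,3): (C1) `- 2 B' - X_1 ∂_1 B' + X_1 ∂_2 A' + ∂_3 (A B' - A' B) = 0`;  (1,2,4): (C2) `2 B + X_1 ∂_1 B - X_1 ∂_2 A + ∂_4 (A B' - A' B) = 0`.
`∂_3, ∂_4` of (C1), (C2): `g (a-1) = c e`, `- e + b g - c f = 0`, `f (2 - a) = - b e`; these give `e² + f g = 0`.
`∂_u`, `u = 0, 2`, of (C1), (C2) (`X_u` denoting the `u`-coefficient): `(a-1) B_u + b B'_u = e A_u + f A'_u`, `c B_u + (d-1) B'_u = g A_u - e A'_u`.
CASE `e = f = g = 0`: `(M - 1)(B_u, B'_u) = 0` for `u = 0, 2`, `M - 1 ≠ 0` (trace 1), so there is `(c0, d0) ≠ 0` with `c0 B + d0 B' ∈ ℂ X_1`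
(`B, B'` do not involve `X_3, X_4`), and `c0 p + d0 q = (c0 A + d0 A', μ X_1, c0 X_1, d0 X_1)`: `Rk2` by `miss2_of_two`, contradiction to `nt`.
CASE `(e, f, g) ≠ 0`: `w = (e, g)` or `w = (f, - e)` is a non-zero eigenvector: `a w_1 + b w_2 = 2 w_1`, `c w_1 + d w_2 = 2 w_2`
[`t = (a-1) e + c f` satisfies `e t = f t = g t = 0`], and `a d - b c = 2`.
Closedness with index 0 (`θ_0(j+1) = s p_j - r q_j`): (0,4,5 in 1-based = 0,3,4): `∂_3 r + ∂_4 s = 0`; (0,1,3): `s + X_1 ∂_1 s - ∂_3 (s A - r A') = - X_1² ∂_0 A'`;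
(0,1,4): `- r - X_1 ∂_1 r - ∂_4 (s A - r A') = X_1² ∂_0 A`.  (signs to be checked by the prover.)
Let `τ = w_1 s - w_2 r`.  Modulo `X_1`: `A ∂_3 τ + A' ∂_4 τ + τ ≡ 0`.  `eig_neg`: `X_1 ∣ τ`; `reg` gives `w = 0`, contradiction.
`eig_neg`: `E = A ∂_3 τ + A' ∂_4 τ + τ = X_1 L`.  `∂_i ∂_j E = 0` for `i, j ∈ {3,4}`: `(2a+1) τ_33 + 2c τ_34 = 0`, `(a+d+1) τ_34 + b τ_33 + c τ_44 = 0`,
`(2d+1) τ_44 + 2b τ_34 = 0`; determinant `60`; so `τ_33 = τ_34 = τ_44 = 0`.  Then for `u ∈ {0,2}`: `∂_u ∂_3 E = 0`: `(a+1) τ_3u + c τ_4u = 0`,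
`b τ_3u + (d+1) τ_4u = 0`, determinant `6`.  So `∂_3 τ, ∂_4 τ ∈ ℂ X_1` (Euler) and `X_1 ∣ τ`. -/

set_option autoImplicit false

namespace Pool.Agent.Helper60.FC

open MvPolynomial
open scoped BigOperators
open Pool.Agent.Helper71.FC
open Pool.Agent.Helper71.FL (w12 pf ct Dec Closed dd)

theorem eig_neg {τ A A' : Pn 5} (hτ : τ.IsHomogeneous 2) (hA : A.IsHomogeneous 1)
    (hA' : A'.IsHomogeneous 1) {a b c d : ℂ} (ha : pderiv 3 A = C a) (hb : pderiv 4 A = C b)
    (hc : pderiv 3 A' = C c) (hd : pderiv 4 A' = C d) (htr : a + d = 3) (hdet : a * d - b * c = 2)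
    (h : X 1 ∣ A * pderiv 3 τ + A' * pderiv 4 τ + τ) : X 1 ∣ τ := by
  obtain ⟨α, hα, -⟩ := lin_data hA
  obtain ⟨α', hα', -⟩ := lin_data hA'
  have hCi := C_injective (Fin 5) ℂ
  have e1 : α 3 = a := hCi ((hα 3).symm.trans ha)
  have e2 : α 4 = b := hCi ((hα 4).symm.trans hb)
  have e3 : α' 3 = c := hCi ((hα' 3).symm.trans hc)
  have e4 : α' 4 = d := hCi ((hα' 4).symm.trans hd)
  have hpd : ∀ i : Fin 5, (pderiv i τ).IsHomogeneous 1 := fun i => hτ.pderiv
  have h1 : ∀ i : Fin 5, ∃ t : Fin 5 → ℂ, (∀ j, pderiv j (pderiv i τ) = C (t j)) ∧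
      pderiv i τ = ∑ j, C (t j) * X j := fun i => lin_data (hpd i)
  choose t ht ht' using h1
  have hsymm : ∀ i j, t i j = t j i := by
    intro i j
    apply hCi
    rw [← ht, ← ht]
    exact Pool.Agent.Helper50.FC.pd_comm j i τ
  obtain ⟨L, hL⟩ := h
  have hE : (X 1 * L : Pn 5).IsHomogeneous (1 + 1) := by
    rw [← hL]
    exact ((hA.mul (hpd 3)).add (hA'.mul (hpd 4))).add hτ
  have hLh : L.IsHomogeneous 1 := hom_fac hE (isHomogeneous_X ℂ 1) (X_ne_zero 1)
  obtain ⟨ℓ, hℓ, -⟩ := lin_data hLh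
  have key : ∀ i j : Fin 5, i ≠ 1 → j ≠ 1 →
      α j * t 3 i + α i * t 3 j + α' j * t 4 i + α' i * t 4 j + t j i = 0 := by
    intro i j hi hj
    have h2 := congrArg (fun f => pderiv i (pderiv j f)) hL
    simp only [map_add, Derivation.leibniz, smul_eq_mul, hα, hα', ht, hℓ, pderiv_C,
      pderiv_X_of_ne (Ne.symm hi), pderiv_X_of_ne (Ne.symm hj), mul_zero, add_zero,
      zero_add] at h2
    apply hCi
    simp only [map_add, map_mul, map_zero]
    linear_combination h2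
  have k33 := key 3 3 (by decide) (by decide)
  have k34 := key 3 4 (by decide) (by decide)
  have k44 := key 4 4 (by decide) (by decide)
  rw [e1, e3, hsymm 4 3] at k33
  rw [e1, e2, e3, e4, hsymm 4 3] at k34
  rw [e2, e4] at k44
  have k34' : b * t 3 3 + 4 * t 3 4 + c * t 4 4 = 0 := by
    linear_combination k34 - t 3 4 * htr
  have z33 : t 3 3 = 0 := by
    have : (60 : ℂ) * t 3 3 = 0 := by
      linear_combination (4 * (2 * d + 1) - 2 * b * c) * k33 + (-(2 * c * (2 * d + 1))) * k34' +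
        (2 * c ^ 2) * k44 + (-16 * t 3 3) * hdet + ((4 * b * c - 8) * t 3 3) * htr
    simpa using this
  have z34 : t 3 4 = 0 := by
    have : (60 : ℂ) * t 3 4 = 0 := by
      linear_combination (-(b * (2 * d + 1))) * k33 + ((2 * a + 1) * (2 * d + 1)) * k34' +
        (-((2 * a + 1) * c)) * k44 + (-16 * t 3 4) * hdet + ((4 * b * c - 8) * t 3 4) * htr
    simpa using this
  have z44 : t 4 4 = 0 := by
    have : (60 : ℂ) * t 4 4 = 0 := by
      linear_combination (2 * b ^ 2) * k33 + (-(2 * b * (2 * a + 1))) * k34' +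
        (4 * (2 * a + 1) - 2 * b * c) * k44 + (-16 * t 4 4) * hdet +
        ((4 * b * c - 8) * t 4 4) * htr
    simpa using this
  have zu : ∀ u : Fin 5, u ≠ 1 → t 3 u = 0 ∧ t 4 u = 0 := by
    intro u hu
    have k3 := key 3 u (by decide) hu
    have k4 := key 4 u (by decide) hu
    rw [e1, e3, z33, hsymm 4 3, z34, hsymm u 3] at k3
    rw [e2, e4, z34, z44, hsymm u 4] at k4
    constructor
    · have : (6 : ℂ) * t 3 u = 0 := by
        linear_combination (d + 1) * k3 - c * k4 - t 3 u * hdet - t 3 u * htr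
      simpa using this
    · have : (6 : ℂ) * t 4 u = 0 := by
        linear_combination (a + 1) * k4 - b * k3 - t 4 u * hdet - t 4 u * htr
      simpa using this
  have d3 : pderiv 3 τ = X 1 * C (t 3 1) := by
    rw [ht' 3, Finset.sum_eq_single 1]
    · ring
    · intro u _ hu; rw [(zu u hu).1, C_0, zero_mul]
    · intro hb; exact absurd (Finset.mem_univ _) hb
  have d4 : pderiv 4 τ = X 1 * C (t 4 1) := by
    rw [ht' 4, Finset.sum_eq_single 1]
    · ring
    · intro u _ hu; rw [(zu u hu).2, C_0, zero_mul]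
    · intro hb; exact absurd (Finset.mem_univ _) hb
  rw [d3, d4] at hL
  exact ⟨L - A * C (t 3 1) - A' * C (t 4 1), by linear_combination hL⟩

theorem caseB5 {θ : F2 5} {A A' B B' r s : Pn 5}
    (h : Ad (k := 4) θ (X 1) ![A, B, X 1, 0] ![A', B', 0, X 1] r s) : False := by
  have hA : A.IsHomogeneous 1 := h.hp 0
  have hB : B.IsHomogeneous 1 := h.hp 1
  have hA' : A'.IsHomogeneous 1 := h.hq 0
  have hB' : B'.IsHomogeneous 1 := h.hq 1
  obtain ⟨α, hα, -⟩ := lin_data hA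
  obtain ⟨α', hα', -⟩ := lin_data hA'
  obtain ⟨β, hβ, hβ2⟩ := lin_data hB
  obtain ⟨β', hβ', hβ2'⟩ := lin_data hB'
  have hCi := C_injective (Fin 5) ℂ
  have hx : (X 1 : Pn 5) ≠ 0 := X_ne_zero 1
  have t12 : θ 1 2 = X 1 * (A * B' - B * A') := h.e1 0 1
  have t13 : θ 1 3 = X 1 * (A * 0 - X 1 * A') := h.e1 0 2
  have t14 : θ 1 4 = X 1 * (A * X 1 - 0 * A') := h.e1 0 3
  have t23 : θ 2 3 = X 1 * (B * 0 - X 1 * B') := h.e1 1 2
  have t24 : θ 2 4 = X 1 * (B * X 1 - 0 * B') := h.e1 1 3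
  have t34 : θ 3 4 = X 1 * (X 1 * X 1 - 0 * 0) := h.e1 2 3
  have t31 : θ 3 1 = X 1 * (X 1 * A' - A * 0) := h.e1 2 0
  have t41 : θ 4 1 = X 1 * (0 * A' - A * X 1) := h.e1 3 0
  have t42 : θ 4 2 = X 1 * (0 * B' - B * X 1) := h.e1 3 1
  have t01 : θ 0 1 = s * A - r * A' := h.e0 0
  have t03 : θ 0 3 = s * X 1 - r * 0 := h.e0 2
  have t04 : θ 0 4 = s * 0 - r * X 1 := h.e0 3
  have t30 : θ 3 0 = - (s * X 1 - r * 0) := by rw [h.dec.2.1, t03]
  have t40 : θ 4 0 = - (s * 0 - r * X 1) := by rw [h.dec.2.1, t04]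
  have p1 : pderiv 1 (X 1 : Pn 5) = 1 := pderiv_X_self 1
  have p0 : pderiv 0 (X 1 : Pn 5) = 0 := pderiv_X_of_ne (by decide)
  have p2 : pderiv 2 (X 1 : Pn 5) = 0 := pderiv_X_of_ne (by decide)
  have p3 : pderiv 3 (X 1 : Pn 5) = 0 := pderiv_X_of_ne (by decide)
  have p4 : pderiv 4 (X 1 : Pn 5) = 0 := pderiv_X_of_ne (by decide)
  have c134 := h.closed 1 3 4
  rw [t34, t41, t13] at c134
  have c234 := h.closed 2 3 4
  rw [t34, t42, t23] at c234
  have c123 := h.closed 1 2 3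
  rw [t23, t31, t12] at c123
  have c124 := h.closed 1 2 4
  rw [t24, t41, t12] at c124
  have c034 := h.closed 0 3 4
  rw [t34, t40, t03] at c034
  have c013 := h.closed 0 1 3
  rw [t13, t30, t01] at c013
  have c014 := h.closed 0 1 4
  rw [t14, t40, t01] at c014
  simp only [mul_zero, zero_mul, sub_zero, zero_sub, Derivation.leibniz, smul_eq_mul, map_sub,
    map_neg, neg_neg, p0, p1, p2, p3, p4, hα, hα', hβ, hβ'] at c134 c234 c123 c124 c034 c013 c014
  have htr : α 3 + α' 4 = 3 := by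
    have h1 : (X 1 : Pn 5) ^ 2 * (3 - C (α 3) - C (α' 4)) = 0 := by linear_combination c134
    have h2 := (mul_eq_zero.mp h1).resolve_left (pow_ne_zero 2 hx)
    apply hCi
    rw [map_add, map_ofNat]
    linear_combination -h2
  have hh : β' 4 = - β 3 := by
    have h1 : (X 1 : Pn 5) ^ 2 * (C (β 3) + C (β' 4)) = 0 := by linear_combination -c234
    have h2 := (mul_eq_zero.mp h1).resolve_left (pow_ne_zero 2 hx)
    apply hCi
    rw [map_neg]
    linear_combination h2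
  have C1 : - 2 * B' - X 1 * C (β' 1) + X 1 * C (α' 2) + A * C (β' 3) + B' * C (α 3) -
      B * C (α' 3) - A' * C (β 3) = 0 := by
    have h1 : (X 1 : Pn 5) * (- 2 * B' - X 1 * C (β' 1) + X 1 * C (α' 2) + A * C (β' 3) +
      B' * C (α 3) - B * C (α' 3) - A' * C (β 3)) = 0 := by linear_combination c123
    exact (mul_eq_zero.mp h1).resolve_left hx
  have C2 : 2 * B + X 1 * C (β 1) - X 1 * C (α 2) + A * C (β' 4) + B' * C (α 4) -
      B * C (α' 4) - A' * C (β 4) = 0 := by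
    have h1 : (X 1 : Pn 5) * (2 * B + X 1 * C (β 1) - X 1 * C (α 2) + A * C (β' 4) +
      B' * C (α 4) - B * C (α' 4) - A' * C (β 4)) = 0 := by linear_combination c124
    exact (mul_eq_zero.mp h1).resolve_left hx
  have q1 : ∀ u : Fin 5, u ≠ 1 →
      (α 3 - 2) * β' u + β' 3 * α u - β 3 * α' u - α' 3 * β u = 0 := by
    intro u hu
    have h1 := congrArg (pderiv u) C1
    have pn : pderiv u (2 : Pn 5) = 0 := (pderiv u).map_natCast 2
    simp only [map_add, map_sub, map_neg, Derivation.leibniz, smul_eq_mul, hα, hα', hβ, hβ',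
      pderiv_C, pderiv_X_of_ne (Ne.symm hu), pn, mul_zero, add_zero, map_zero,
      sub_zero, neg_zero] at h1
    apply hCi
    simp only [map_add, map_mul, map_sub, map_zero, map_ofNat]
    linear_combination h1
  have q2 : ∀ u : Fin 5, u ≠ 1 →
      (2 - α' 4) * β u + α 4 * β' u + β' 4 * α u - β 4 * α' u = 0 := by
    intro u hu
    have h1 := congrArg (pderiv u) C2
    have pn : pderiv u (2 : Pn 5) = 0 := (pderiv u).map_natCast 2
    simp only [map_add, map_sub, Derivation.leibniz, smul_eq_mul, hα, hα', hβ, hβ',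
      pderiv_C, pderiv_X_of_ne (Ne.symm hu), pn, mul_zero, add_zero, map_zero,
      sub_zero] at h1
    apply hCi
    simp only [map_add, map_mul, map_sub, map_zero, map_ofNat]
    linear_combination h1
  have r1 : β' 3 * (α 3 - 1) = α' 3 * β 3 := by
    have := q1 3 (by decide)
    linear_combination this / 2
  have r2 : - β 3 + α 4 * β' 3 - α' 3 * β 4 = 0 := by
    have := q2 3 (by decide)
    rw [hh] at this
    linear_combination this + β 3 * htr
  have r3 : β 4 * (α 3 - 2) = α 4 * β 3 := by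
    have := q2 4 (by decide)
    rw [hh] at this
    linear_combination this / 2 + β 4 * htr
  by_cases hN : β 3 = 0 ∧ β 4 = 0 ∧ β' 3 = 0
  · obtain ⟨z1, z2, z3⟩ := hN
    obtain ⟨c0, d0, hcd, hz⟩ : ∃ c0 d0 : ℂ, (c0 ≠ 0 ∨ d0 ≠ 0) ∧
        ∀ u : Fin 5, u ≠ 1 → c0 * β u + d0 * β' u = 0 := by
      by_cases hd : 2 - α' 4 = 0
      · refine ⟨- α' 3, α 3 - 2, Or.inr ?_, fun u hu => ?_⟩
        · intro h0
          have : (1 : ℂ) = 0 := by linear_combination htr - h0 + hd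
          exact one_ne_zero this
        · have := q1 u hu
          rw [z1, z3] at this
          linear_combination this
      · refine ⟨2 - α' 4, α 4, Or.inl hd, fun u hu => ?_⟩
        have := q2 u hu
        rw [hh, z1, z2] at this
        linear_combination this
    refine h.nt c0 d0 hcd (rk2_of_two (u1 := C c0 * A + C d0 * A') (u2 := X 1)
      (a := ![1, 0, 0, 0]) (b := ![0, c0 * β 1 + d0 * β' 1, c0, d0]) ?_)
    have hBB : C c0 * B + C d0 * B' = C (c0 * β 1 + d0 * β' 1) * X 1 := by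
      have h1 : C c0 * B + C d0 * B' = ∑ u : Fin 5, C (c0 * β u + d0 * β' u) * X u := by
        rw [hβ2, hβ2', Finset.mul_sum, Finset.mul_sum, ← Finset.sum_add_distrib]
        refine Finset.sum_congr rfl fun u _ => ?_
        simp only [map_add, map_mul]
        ring
      rw [h1, Finset.sum_eq_single 1]
      · intro u _ hu; rw [hz u hu, C_0, zero_mul]
      · intro hb; exact absurd (Finset.mem_univ _) hb
    intro i
    fin_cases i
    · show C c0 * A + C d0 * A' = C 1 * (C c0 * A + C d0 * A') + C 0 * X 1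
      rw [C_1, C_0]; ring
    · show C c0 * B + C d0 * B' = C 0 * (C c0 * A + C d0 * A') + C (c0 * β 1 + d0 * β' 1) * X 1
      rw [hBB, C_0]; ring
    · show C c0 * X 1 + C d0 * 0 = C 0 * (C c0 * A + C d0 * A') + C c0 * X 1
      rw [C_0]; ring
    · show C c0 * 0 + C d0 * X 1 = C 0 * (C c0 * A + C d0 * A') + C d0 * X 1
      rw [C_0]; ring
  · obtain ⟨w1, w2, hw, g1, g2⟩ : ∃ w1 w2 : ℂ, (w1 ≠ 0 ∨ w2 ≠ 0) ∧
        α 3 * w1 + α 4 * w2 = 2 * w1 ∧ α' 3 * w1 + α' 4 * w2 = 2 * w2 := by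
      have hen : β 3 ^ 2 + β 4 * β' 3 = 0 := by
        linear_combination -(β 3) * r2 - β' 3 * r3 + β 4 * r1
      have te : ((α 3 - 1) * β 3 + α' 3 * β 4) * β 3 = 0 := by
        linear_combination (α 3 - 1) * hen - β 4 * r1
      have tf : ((α 3 - 1) * β 3 + α' 3 * β 4) * β 4 = 0 := by
        linear_combination β 3 * r3 - β 4 * r2 + α 4 * hen
      have tg : ((α 3 - 1) * β 3 + α' 3 * β 4) * β' 3 = 0 := by
        linear_combination β 3 * r1 + α' 3 * hen
      by_cases h1 : β 3 = 0 ∧ β' 3 = 0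
      · have hf : β 4 ≠ 0 := fun h2 => hN ⟨h1.1, h2, h1.2⟩
        refine ⟨β 4, 0, Or.inl hf, ?_, ?_⟩
        · rw [h1.1] at r3
          linear_combination r3
        · rw [h1.1, h1.2] at r2
          linear_combination -r2
      · have ht : (α 3 - 1) * β 3 + α' 3 * β 4 = 0 := by
          by_contra h2
          exact h1 ⟨(mul_eq_zero.mp te).resolve_left h2, (mul_eq_zero.mp tg).resolve_left h2⟩
        refine ⟨β 3, β' 3, ?_, ?_, ?_⟩
        · by_contra h2
          push Not at h2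
          exact h1 h2
        · linear_combination r2 + ht
        · linear_combination -r1 + β' 3 * htr
    have hdet : α 3 * α' 4 - α 4 * α' 3 = 2 := by
      have k1 : (α 3 * α' 4 - α 4 * α' 3 - 2) * w1 = 0 := by
        linear_combination (α' 4 - 2) * g1 - α 4 * g2 + 2 * w1 * htr
      have k2 : (α 3 * α' 4 - α 4 * α' 3 - 2) * w2 = 0 := by
        linear_combination (α 3 - 2) * g2 - α' 3 * g1 + 2 * w2 * htr
      by_contra h2
      have h3 : α 3 * α' 4 - α 4 * α' 3 - 2 ≠ 0 := fun h4 => h2 (by linear_combination h4)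
      rcases hw with hw | hw
      · exact hw ((mul_eq_zero.mp k1).resolve_left h3)
      · exact hw ((mul_eq_zero.mp k2).resolve_left h3)
    have hrs : pderiv 4 s = - pderiv 3 r := by
      have h1 : (X 1 : Pn 5) * (pderiv 3 r + pderiv 4 s) = 0 := by linear_combination c034
      have h2 := (mul_eq_zero.mp h1).resolve_left hx
      linear_combination h2
    have hdvd : X 1 ∣ C w1 * s - C w2 * r := by
      have hτ : (C w1 * s - C w2 * r).IsHomogeneous 2 := (h.hs.C_mul w1).sub (h.hr.C_mul w2)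
      refine eig_neg hτ hA hA' (hα 3) (hα 4) (hα' 3) (hα' 4) htr hdet ?_
      have e3 : pderiv 3 (C w1 * s - C w2 * r) = C w1 * pderiv 3 s - C w2 * pderiv 3 r := by
        rw [map_sub, pderiv_C_mul, pderiv_C_mul]
      have e4 : pderiv 4 (C w1 * s - C w2 * r) = C w1 * pderiv 4 s - C w2 * pderiv 4 r := by
        rw [map_sub, pderiv_C_mul, pderiv_C_mul]
      have G1 := congrArg (C : ℂ → Pn 5) g1
      have G2 := congrArg (C : ℂ → Pn 5) g2
      simp only [map_add, map_mul, map_ofNat] at G1 G2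
      refine ⟨C w1 * (X 1 * C (α' 0) + pderiv 1 s) - C w2 * (X 1 * C (α 0) + pderiv 1 r), ?_⟩
      rw [e3, e4]
      linear_combination C w1 * c013 + C w2 * c014 + (C w1 * A' - C w2 * A) * hrs - s * G1 + r * G2
    have h5 := h.reg (- w2) w1 (by
      obtain ⟨t, ht⟩ := hdvd
      exact ⟨t, by rw [← ht, map_neg]; ring⟩)
    rcases hw with hw | hw
    · exact hw h5.2
    · exact hw (neg_eq_zero.mp h5.1)

end Pool.Agent.Helper60.FC
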