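import Pool.Agent.Helper60.FC.Prop4
import Pool.Agent.Helper18.LB.IC2

/-! PROP 4 in the forms used by the assembly: `i4 : I4` (type (4)) and `prop4_c3` (the output of type (3a)). -/

set_option autoImplicit false

namespace Pool.Agent.Helper60.FC

open MvPolynomial
open scoped BigOperators
open Pool.Agent.Helper71.FC
open Pool.Agent.Helper71.FL (w12 pf ct Dec Closed dd)

variable {n : ℕ}

theorem i4 : Pool.Agent.Helper18.LB.I4 := ic2nf2

/-- type (3a) after the reduction to `θ = z f1 ∧ f2 + om (x1 f2 - x2 f1) ∧ dz` -/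
theorem prop4_c3 (hn : 5 ≤ n) {θ : F2 n} (h : Fol θ) (hc : ¬ Cone θ) (h1 : EE θ 1 = ⊥)
    {z om x1 x2 : Pn n} {f1 f2 : F1 n} (hz : z.IsHomogeneous 1) (z0 : z ≠ 0)
    (ho : om.IsHomogeneous 1) (hx1 : x1.IsHomogeneous 1) (hx2 : x2.IsHomogeneous 1)
    (hf1 : ∀ i, (f1 i).IsHomogeneous 1) (hf2 : ∀ i, (f2 i).IsHomogeneous 1)
    (eq : ∀ i j, θ i j = z * w11 f1 f2 i j +
      om * (x1 * w11 f2 (df z) i j - x2 * w11 f1 (df z) i j)) : OutC2 θ := by
  refine prop4' hn h hc h1 hz z0 hz z0 hf1 hf2 (r := om * x1) (s := om * x2) (ho.mul hx1)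
    (ho.mul hx2) (fun i j => ?_)
  rw [eq i j]
  unfold w11
  ring

end Pool.Agent.Helper60.FC
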