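import Pool.Agent.Helper60.FC.CaseA
import Pool.Agent.Helper60.FC.CaseB
import Pool.Agent.Helper71.FC.CaseC2

/-!
P4-8: PROP 4, final form.

`xi_mem`: `(m φ' - r' dl) ∧ θ = 0` by `ring`-type computation.  `reg_of`: if `m t = c r + d s` (`t` linear) then `w = c φ + d ψ - t dl` satisfies `m w = xi c d`,
so `w ∈ EE θ 1 = ⊥`; so `xi c d = 0` and `m θ = xi (1,0) ∧ xi (0,1) = 0` if `(c, d) ≠ 0`, contradiction to `prim`.
`prop4` by contradiction: if no `Van l (c φ + d ψ)` then `S4 θ ..` (`xi c d` vanishes on the same vectors, it is non-zero by the same argument).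
`l = lf a`, `m = lf b` (`lf_of_hom`).  If `a, b` are linearly independent, `exists_coord` (`r = 2`) gives `g` with `lsub g l = X 0`, `lsub g m = X 1`:
`S4.pb2`, `S4.ad`, `caseB`.  Otherwise `m = c l`, `c ≠ 0`, `exists_coord` (`r = 1`), `lsub g l = X 0`, `lsub g m = C c * X 0`: `caseA`, and `Fam3_pb2` with the
inverse matrix. -/

set_option autoImplicit false

namespace Pool.Agent.Helper60.FC

open MvPolynomial
open scoped BigOperators
open Pool.Agent.Helper71.FC
open Pool.Agent.Helper71.FL (w12 pf ct Dec Closed dd)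

variable {n : ℕ}

private theorem p4_mul_ne {A : Type} [CommRing A] [IsDomain A] {c m t : A} (hc : c ≠ 0)
    (hm : m ≠ 0) (h : c * (m * t) = 0) : t = 0 := by
  rcases mul_eq_zero.1 h with h1 | h1
  · exact absurd h1 hc
  · rcases mul_eq_zero.1 h1 with h2 | h2
    · exact absurd h2 hm
    · exact h2

theorem xi_mem {θ : F2 n} {l m : Pn n} {φ ψ : F1 n} {r s : Pn n} (hl : l.IsHomogeneous 1)
    (hm : m.IsHomogeneous 1) (hφ : ∀ i, (φ i).IsHomogeneous 1) (hψ : ∀ i, (ψ i).IsHomogeneous 1)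
    (hr : r.IsHomogeneous 2) (hs : s.IsHomogeneous 2)
    (eq : ∀ i j, θ i j = m * w11 φ ψ i j + r * w11 ψ (df l) i j + s * w11 (df l) φ i j)
    (c d : ℂ) : xi l m φ ψ r s c d ∈ EE θ 2 := by
  have hC : ∀ (e : ℂ) {f : Pn n} {k : ℕ}, f.IsHomogeneous k → (C e * f).IsHomogeneous k := by
    intro e f k hf
    have := (isHomogeneous_C (Fin n) e).mul hf
    rwa [zero_add] at this
  refine ⟨fun i => ?_, fun i j k => ?_⟩
  · have h1 : (df l i).IsHomogeneous 0 := hl.pderiv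
    have h2 := hm.mul ((hC c (hφ i)).add (hC d (hψ i)))
    have h3 := ((hC c hr).add (hC d hs)).mul h1
    exact h2.sub h3
  · unfold w12 xi
    rw [eq j k, eq k i, eq i j]
    unfold w11
    ring

theorem xi_ne {θ : F2 n} (h : Fol θ) {l m : Pn n} {φ ψ : F1 n} {r s : Pn n} (m0 : m ≠ 0)
    (eq : ∀ i j, θ i j = m * w11 φ ψ i j + r * w11 ψ (df l) i j + s * w11 (df l) φ i j)
    {c d : ℂ} (hcd : c ≠ 0 ∨ d ≠ 0) : xi l m φ ψ r s c d ≠ 0 := by
  intro h0
  have hx : ∀ i, xi l m φ ψ r s c d i = 0 := fun i => congrFun h0 i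
  have hθ : ∀ i j, θ i j = 0 := by
    intro i j
    have e1 := hx i
    have e2 := hx j
    unfold xi at e1 e2
    rcases hcd with hc | hd
    · refine p4_mul_ne (c := C c) (m := m) (fun h1 => hc (C_eq_zero.1 h1)) m0 ?_
      rw [eq i j]
      unfold w11
      linear_combination (m * ψ j - s * df l j) * e1 - (m * ψ i - s * df l i) * e2
    · refine p4_mul_ne (c := C d) (m := m) (fun h1 => hd (C_eq_zero.1 h1)) m0 ?_
      rw [eq i j]
      unfold w11
      linear_combination (m * φ i - r * df l i) * e2 - (m * φ j - r * df l j) * e1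
  exact not_isUnit_zero (h.prim 0 (fun i j => by rw [hθ i j]))

theorem reg_of {θ : F2 n} (h : Fol θ) (h1 : EE θ 1 = ⊥) {l m : Pn n} {φ ψ : F1 n}
    {r s : Pn n} (hl : l.IsHomogeneous 1) (hm : m.IsHomogeneous 1) (m0 : m ≠ 0)
    (hφ : ∀ i, (φ i).IsHomogeneous 1) (hψ : ∀ i, (ψ i).IsHomogeneous 1) (hr : r.IsHomogeneous 2)
    (hs : s.IsHomogeneous 2)
    (eq : ∀ i j, θ i j = m * w11 φ ψ i j + r * w11 ψ (df l) i j + s * w11 (df l) φ i j)
    (c d : ℂ) (hd : m ∣ C c * r + C d * s) : c = 0 ∧ d = 0 := by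
  by_contra hcon
  have hcd : c ≠ 0 ∨ d ≠ 0 := by
    by_contra h2
    push Not at h2
    exact hcon h2
  have hC : ∀ (e : ℂ) {f : Pn n} {k : ℕ}, f.IsHomogeneous k → (C e * f).IsHomogeneous k := by
    intro e f k hf
    have := (isHomogeneous_C (Fin n) e).mul hf
    rwa [zero_add] at this
  obtain ⟨t, ht⟩ := hd
  have hth : t.IsHomogeneous 1 := by
    apply Pool.Agent.Helper18.LB.hom_right (f := m) (g := t) (d := 1) (e := 1) _ hm m0
    rw [← ht]
    exact (hC c hr).add (hC d hs)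
  have hw : ∀ i, xi l m φ ψ r s c d i = m * (C c * φ i + C d * ψ i - t * df l i) := by
    intro i
    unfold xi
    rw [ht]
    ring
  have hmem : (fun i => C c * φ i + C d * ψ i - t * df l i) ∈ EE θ 1 := by
    refine ⟨fun i => ?_, fun i j k => ?_⟩
    · have h2 : (df l i).IsHomogeneous 0 := hl.pderiv
      exact ((hC c (hφ i)).add (hC d (hψ i))).sub (hth.mul h2)
    · apply mul_left_cancel₀ m0
      rw [mul_zero, ← Pool.Agent.Helper71.FL.w12_smul]
      have h3 : (fun l_1 => m * (C c * φ l_1 + C d * ψ l_1 - t * df l l_1)) =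
          xi l m φ ψ r s c d := funext fun i => (hw i).symm
      rw [h3]
      exact (xi_mem hl hm hφ hψ hr hs eq c d).2 i j k
  rw [h1, Submodule.mem_bot] at hmem
  refine xi_ne h m0 eq hcd (funext fun i => ?_)
  rw [hw i]
  have h4 := congrFun hmem i
  simp only [Pi.zero_apply] at h4 ⊢
  rw [h4, mul_zero]

private theorem lf_smul (c : ℂ) (a : Fin n → ℂ) : lf (c • a) = C c * lf a := by
  unfold lf
  rw [Finset.mul_sum]
  refine Finset.sum_congr rfl fun i _ => ?_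
  rw [Pi.smul_apply, smul_eq_mul, C_mul, mul_assoc]

private theorem lsub_C' (g : Fin n → Fin n → ℂ) (c : ℂ) :
    Pool.Agent.Helper93.lsub g (C c : Pn n) = C c := by
  unfold Pool.Agent.Helper93.lsub
  rw [aeval_C]
  rfl

private theorem van_xi {l m : Pn n} {φ ψ : F1 n} {r s : Pn n} {c d : ℂ}
    (h : Van l (fun i => C c * φ i + C d * ψ i)) : Van3 (xi l m φ ψ r s c d) := by
  obtain ⟨D, hD, hv⟩ := h
  refine ⟨D, hD, fun v hvD => ?_⟩
  obtain ⟨h1, h2⟩ := hv v hvD
  have h3 : pair (cv v) (xi l m φ ψ r s c d) =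
      m * pair (cv v) (fun i => C c * φ i + C d * ψ i) -
        (C c * r + C d * s) * pair (cv v) (df l) := by
    unfold pair xi
    rw [Finset.mul_sum, Finset.mul_sum, ← Finset.sum_sub_distrib]
    refine Finset.sum_congr rfl fun i _ => ?_
    ring
  rw [h3, h1, h2, mul_zero, mul_zero, sub_zero]

/-- PROP 4 -/
theorem prop4 (hn : 5 ≤ n) {θ : F2 n} (h : Fol θ) (hc : ¬ Cone θ) (h1 : EE θ 1 = ⊥)
    {l m : Pn n} {φ ψ : F1 n}
    {r s : Pn n} (hl : l.IsHomogeneous 1) (l0 : l ≠ 0) (hm : m.IsHomogeneous 1) (m0 : m ≠ 0)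
    (hφ : ∀ i, (φ i).IsHomogeneous 1) (hψ : ∀ i, (ψ i).IsHomogeneous 1) (hr : r.IsHomogeneous 2)
    (hs : s.IsHomogeneous 2)
    (eq : ∀ i j, θ i j = m * w11 φ ψ i j + r * w11 ψ (df l) i j + s * w11 (df l) φ i j) :
    Fam3 ![1, 2, 2] θ ∨ ∃ σ ∈ EE θ 2, σ ≠ 0 ∧ Van3 σ := by
  by_contra hcon
  rw [not_or] at hcon
  obtain ⟨hcon1, hcon2⟩ := hcon
  have hS : S4 θ l m φ ψ r s :=
    { dec := h.dec
      closed := h.closed
      ncone := hc
      hl := hl
      l0 := l0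
      hm := hm
      m0 := m0
      hφ := hφ
      hψ := hψ
      hr := hr
      hs := hs
      eq := eq
      reg := reg_of h h1 hl hm m0 hφ hψ hr hs eq
      nt := fun c d hcd hv => hcon2 ⟨xi l m φ ψ r s c d, xi_mem hl hm hφ hψ hr hs eq c d,
        xi_ne h m0 eq hcd, van_xi hv⟩ }
  obtain ⟨a, ha⟩ := lf_of_hom hl
  obtain ⟨b, hb⟩ := lf_of_hom hm
  have ha0 : a ≠ 0 := by
    rintro rfl
    apply l0
    rw [ha]
    unfold lf
    simp
  by_cases hli : LinearIndependent ℂ ![a, b]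
  · obtain ⟨k, rfl⟩ : ∃ k, n = k + 2 := ⟨n - 2, by omega⟩
    obtain ⟨g, g', hg, hX⟩ := exists_coord (n := k + 2) (r := 2) (by omega) ![a, b] hli
    have hX0 : Pool.Agent.Helper93.lsub g l = X 0 := by
      rw [ha]
      exact hX 0
    have hX1 : Pool.Agent.Helper93.lsub g m = X 1 := by
      rw [hb]
      exact hX 1
    have h2 := hS.pb2 hg
    rw [hX0, hX1] at h2
    exact caseB (k := k) (by omega) h2.ad
  · rw [LinearIndependent.pair_iff' ha0] at hli
    push Not at hli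
    obtain ⟨c, hcb⟩ := hli
    have hc0 : c ≠ 0 := by
      rintro rfl
      apply m0
      rw [hb, ← hcb, zero_smul]
      unfold lf
      simp
    obtain ⟨k, rfl⟩ : ∃ k, n = k + 1 := ⟨n - 1, by omega⟩
    obtain ⟨g, g', hg, hX⟩ := exists_coord (n := k + 1) (r := 1) (by omega) (fun _ => a) (by
      rw [linearIndependent_unique_iff]
      exact ha0)
    have hX0 : Pool.Agent.Helper93.lsub g l = X 0 := by
      rw [ha]
      exact hX 0
    have hX1 : Pool.Agent.Helper93.lsub g m = C c * X 0 := by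
      rw [hb, ← hcb, lf_smul, map_mul, lsub_C', ← ha, hX0]
    have h2 := hS.pb2 hg
    rw [hX0, hX1] at h2
    have h3 := Fam3_pb2 (caseA (by omega) hc0 h2.ad) g'
    rw [pb2_mm, hg.1, pb2_idm] at h3
    exact hcon1 h3

theorem prop4' (hn : 5 ≤ n) {θ : F2 n} (h : Fol θ) (hc : ¬ Cone θ) (h1 : EE θ 1 = ⊥)
    {l m : Pn n} {φ ψ : F1 n}
    {r s : Pn n} (hl : l.IsHomogeneous 1) (l0 : l ≠ 0) (hm : m.IsHomogeneous 1) (m0 : m ≠ 0)
    (hφ : ∀ i, (φ i).IsHomogeneous 1) (hψ : ∀ i, (ψ i).IsHomogeneous 1) (hr : r.IsHomogeneous 2)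
    (hs : s.IsHomogeneous 2)
    (eq : ∀ i j, θ i j = m * w11 φ ψ i j + r * w11 ψ (df l) i j + s * w11 (df l) φ i j) :
    OutC2 θ := by
  rcases prop4 hn h hc h1 hl l0 hm m0 hφ hψ hr hs eq with h2 | h2
  · exact Or.inl (OKF_of_Fam122 h2)
  · exact Or.inr h2

/-- type (4): `ρ` is constant, `l = ∑ ρ_i X_i`, `φ = φ1`, `ψ = φ2`, `r = - b`, `s = - a` -/
theorem ic2nf2 : IC2nf2 := by
  intro n hn θ hF hc _ e1 σ1 σ2 a b m ρ φ1 φ2 hN
  have hρc : ∀ i, ρ i = C (coeff 0 (ρ i)) := by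
    intro i
    have h1 : (ρ i).IsHomogeneous 0 := hN.hρ i
    rwa [← totalDegree_zero_iff_isHomogeneous, totalDegree_eq_zero_iff_eq_C] at h1
  set l : Pn n := lf (fun i => coeff 0 (ρ i)) with hl
  have hl1 : l.IsHomogeneous 1 := by
    rw [hl]
    unfold lf
    refine IsHomogeneous.sum _ _ _ (fun i _ => ?_)
    have := (isHomogeneous_C (Fin n) (coeff 0 (ρ i))).mul (isHomogeneous_X ℂ i)
    rwa [zero_add] at this
  have hdf : df l = ρ := by
    funext k
    unfold df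
    rw [hl]
    unfold lf
    rw [map_sum, Finset.sum_eq_single k]
    · rw [pderiv_C_mul, pderiv_X_self, mul_one, ← hρc k]
    · intro b _ hb
      rw [pderiv_C_mul, pderiv_X_of_ne hb, mul_zero]
    · intro hk; exact absurd (Finset.mem_univ k) hk
  have l0 : l ≠ 0 := by
    intro h0
    obtain ⟨i, hi⟩ := hN.hρ0
    apply hi
    rw [← hdf, h0]
    unfold df
    rw [map_zero]
    exact dvd_zero m
  refine prop4' hn hF hc e1 hl1 l0 hN.hm hN.hm0 hN.hφ1 hN.hφ2 (r := -b) (s := -a)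
    hN.hb.neg hN.ha.neg (fun i j => ?_)
  rw [hN.hθ i j, hdf]
  unfold w11
  ring

end Pool.Agent.Helper60.FC
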